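import Mathlib
import Pool.Agent.Helper98.KA.RSide4

/-!
# Cyclic covers of projective space along hyperplanes in arbitrary position

Definitions.
-/

namespace Pool.Agent.Helper70.HA

/-- The rank of the subset `S` of a configuration `l` of vectors. -/
noncomputable def rk {k : Type*} [Field k] {E : Type*} {n : ℕ} (l : E → Fin (n + 1) → k)
    (S : Finset E) : ℕ :=
  Module.finrank k (Submodule.span k (l '' (S : Set E)))

/-- The properties of a rank function of a loopless matroid. -/
structure IsRk {E : Type*} [DecidableEq E] (r : Finset E → ℕ) : Prop where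
  empty : r ∅ = 0
  single : ∀ e, r {e} = 1
  mono : ∀ {S T : Finset E}, S ⊆ T → r S ≤ r T
  submod : ∀ S T : Finset E, r (S ∪ T) + r (S ∩ T) ≤ r S + r T

/-- The log Calabi-Yau condition: the total weight `(1 - 1 / d) * X.card` equals the rank, no
subset has weight larger than its rank, and the subsets of weight equal to their rank split off. -/
def SplitLC {E : Type*} [DecidableEq E] (d : ℕ) (r : Finset E → ℕ) (X : Finset E) : Prop :=
  (d - 1) * X.card = d * r X ∧ ∀ S ⊆ X, (d - 1) * S.card ≤ d * r S ∧
    ((d - 1) * S.card = d * r S → r S + r (X \ S) = r X)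

/-- A good partition. -/
def Good {E : Type*} [DecidableEq E] (d : ℕ) (m : E → ℕ) (r : Finset E → ℕ) (X : Finset E) :
    Prop :=
  ∃ P : Finpartition X, (∀ p ∈ P.parts, d ∣ ∑ e ∈ p, m e) ∧
    (∀ G ⊆ P.parts, G.Nonempty → ∑ p ∈ G, r p < r (G.sup id) + G.card) ∧
    ∃ p ∈ P.parts, ∃ e ∈ p, r (p.erase e) < r p

end Pool.Agent.Helper70.HA
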