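import Mathlib
import Pool.Agent.Helper70.HA.Defs

namespace Pool.Agent.Helper70.HA

set_option linter.unusedSectionVars false

variable {E : Type*} [DecidableEq E]

/-- A set of at least `d` elements has a nonempty zero-sum subset of size at most `d`. -/
theorem exists_zero_sum (d : ℕ) (hd : 1 ≤ d) (m : E → ℕ) (Y : Finset E) (hY : d ≤ Y.card) :
    ∃ B ⊆ Y, B.Nonempty ∧ B.card ≤ d ∧ d ∣ ∑ e ∈ B, m e := by
  classical
  obtain ⟨Y', hY', hc⟩ := Finset.exists_subset_card_eq hY
  let e : Fin d ≃ Y' := (Y'.equivFinOfCardEq hc).symm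
  let T : ℕ → Finset E := fun j => (Finset.univ.filter (fun i : Fin d => i.1 < j)).image
    (fun i => (e i : E))
  have hT : ∀ j, T j ⊆ Y' := by
    intro j a ha
    obtain ⟨i, _, rfl⟩ := Finset.mem_image.mp ha
    exact (e i).2
  have hmono : ∀ i j, i ≤ j → T i ⊆ T j := by
    intro i j hij a ha
    obtain ⟨u, hu, rfl⟩ := Finset.mem_image.mp ha
    apply Finset.mem_image_of_mem
    rw [Finset.mem_filter] at hu ⊢
    exact ⟨hu.1, lt_of_lt_of_le hu.2 hij⟩
  have hne : NeZero d := ⟨by omega⟩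
  let g : Fin (d + 1) → ZMod d := fun j => ((∑ a ∈ T j.1, m a : ℕ) : ZMod d)
  obtain ⟨i, j, hij, hg⟩ := Fintype.exists_ne_map_eq_of_card_lt g (by
    rw [ZMod.card, Fintype.card_fin]; omega)
  wlog hlt : i < j generalizing i j
  · exact this j i hij.symm hg.symm (lt_of_le_of_ne (not_lt.mp hlt) hij.symm)
  have hsub := hmono i.1 j.1 hlt.le
  refine ⟨T j.1 \ T i.1, (Finset.sdiff_subset.trans (hT _)).trans hY', ?_, ?_, ?_⟩
  · have hid : i.1 < d := by have := j.2; have : i.1 < j.1 := hlt; omega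
    refine ⟨(e ⟨i.1, hid⟩ : E), ?_⟩
    rw [Finset.mem_sdiff]
    constructor
    · apply Finset.mem_image_of_mem (fun i => (e i : E))
      rw [Finset.mem_filter]
      exact ⟨Finset.mem_univ _, hlt⟩
    · intro h
      obtain ⟨u, hu, hu'⟩ := Finset.mem_image.mp h
      have h1 : u = ⟨i.1, hid⟩ := e.injective (Subtype.ext hu')
      rw [Finset.mem_filter, h1] at hu
      exact lt_irrefl _ hu.2
  · calc (T j.1 \ T i.1).card ≤ Y'.card := Finset.card_le_card (Finset.sdiff_subset.trans (hT _))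
      _ = d := hc
  · have h1 := Finset.sum_sdiff (f := m) hsub
    have h2 : ((∑ a ∈ T j.1 \ T i.1, m a : ℕ) : ZMod d) = 0 := by
      have h3 : g j = ((∑ a ∈ T j.1 \ T i.1, m a : ℕ) : ZMod d) + g i := by
        simp only [g]
        rw [← h1]
        push_cast
        rfl
      rw [hg] at h3
      have h4 : ((∑ a ∈ T j.1 \ T i.1, m a : ℕ) : ZMod d) + g j = 0 + g j := by
        rw [zero_add]; exact h3.symm
      exact add_right_cancel h4
    rwa [ZMod.natCast_eq_zero_iff] at h2

/-- Every set splits into zero-sum blocks of size at most `d` and a remainder of size less than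
`d`. -/
theorem exists_blocks (d : ℕ) (hd : 1 ≤ d) (m : E → ℕ) (Y : Finset E) :
    ∃ Z ⊆ Y, Z.card < d ∧ ∃ P : Finpartition (Y \ Z), ∀ p ∈ P.parts, p.card ≤ d ∧
      d ∣ ∑ e ∈ p, m e := by
  induction hn : Y.card using Nat.strong_induction_on generalizing Y with
  | _ N ih =>
  by_cases hY : Y.card < d
  · refine ⟨Y, subset_rfl, hY, (Finpartition.empty _).copy (by simp), ?_⟩
    intro p hp
    simp at hp
  · push Not at hY
    obtain ⟨B, hBY, hBne, hBc, hB⟩ := exists_zero_sum d hd m Y hY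
    have hlt : (Y \ B).card < N := by
      rw [← hn]
      apply Finset.card_lt_card
      refine Finset.ssubset_iff_subset_ne.mpr ⟨Finset.sdiff_subset, ?_⟩
      intro h
      obtain ⟨a, ha⟩ := hBne
      have : a ∈ Y \ B := by rw [h]; exact hBY ha
      exact (Finset.mem_sdiff.mp this).2 ha
    obtain ⟨Z, hZ, hZc, P, hP⟩ := ih _ hlt (Y \ B) rfl
    have hZY : Z ⊆ Y := hZ.trans Finset.sdiff_subset
    have hdis : Disjoint ((Y \ B) \ Z) B := by
      rw [Finset.disjoint_left]
      intro a ha hb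
      exact (Finset.mem_sdiff.mp (Finset.mem_sdiff.mp ha).1).2 hb
    have heq : ((Y \ B) \ Z) ⊔ B = Y \ Z := by
      ext a
      simp only [Finset.sup_eq_union, Finset.mem_union, Finset.mem_sdiff]
      constructor
      · rintro (⟨⟨h1, h2⟩, h3⟩ | h)
        · exact ⟨h1, h3⟩
        · exact ⟨hBY h, fun hz => (Finset.mem_sdiff.mp (hZ hz)).2 h⟩
      · rintro ⟨h1, h2⟩
        by_cases h : a ∈ B
        · exact Or.inr h
        · exact Or.inl ⟨⟨h1, h⟩, h2⟩
    refine ⟨Z, hZY, hZc, P.extend (Finset.nonempty_iff_ne_empty.mp hBne) hdis heq, ?_⟩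
    intro p hp
    rw [Finpartition.extend_parts, Finset.mem_insert] at hp
    rcases hp with rfl | hp
    · exact ⟨hBc, hB⟩
    · exact hP p hp

end Pool.Agent.Helper70.HA
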