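import Mathlib
import Pool.Agent.Helper70.HA.Defs

namespace Pool.Agent.Helper70.HA

variable {E : Type*} [DecidableEq E]

theorem IsRk.union_le {r : Finset E → ℕ} (hr : IsRk r) (S T : Finset E) :
    r (S ∪ T) ≤ r S + r T := by
  have := hr.submod S T
  omega

theorem IsRk.le_card {r : Finset E → ℕ} (hr : IsRk r) (S : Finset E) : r S ≤ S.card := by
  induction S using Finset.induction_on with
  | empty => rw [hr.empty]; simp
  | insert a S ha ih =>
    rw [Finset.card_insert_of_notMem ha, Finset.insert_eq]
    have := hr.union_le {a} S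
    rw [hr.single] at this
    omega

theorem IsRk.additive {r : Finset E → ℕ} (hr : IsRk r) {A B : Finset E} (hd : Disjoint A B)
    (h : r (A ∪ B) = r A + r B) {S T : Finset E} (hS : S ⊆ A) (hT : T ⊆ B) :
    r (S ∪ T) = r S + r T := by
  apply le_antisymm (hr.union_le S T)
  have h1 := hr.submod (S ∪ B) A
  have h2 : (S ∪ B) ∪ A = A ∪ B := by
    rw [Finset.union_comm, ← Finset.union_assoc, Finset.union_eq_left.mpr hS]
  have h3 : (S ∪ B) ∩ A = S := by
    rw [Finset.union_inter_distrib_right, Finset.inter_eq_left.mpr hS,
      Finset.disjoint_iff_inter_eq_empty.mp hd.symm, Finset.union_empty]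
  have h4 := hr.submod (S ∪ T) B
  have h5 : (S ∪ T) ∪ B = S ∪ B := by
    rw [Finset.union_assoc, Finset.union_eq_right.mpr hT]
  have h6 : (S ∪ T) ∩ B = T := by
    rw [Finset.union_inter_distrib_right, Finset.inter_eq_left.mpr hT,
      Finset.disjoint_iff_inter_eq_empty.mp (Finset.disjoint_of_subset_left hS hd),
      Finset.empty_union]
  rw [h2, h3, h] at h1
  rw [h5, h6] at h4
  omega

theorem exists_klt_partition {r : Finset E → ℕ} (hr : IsRk r) {d : ℕ} (hd : 2 ≤ d)
    (X : Finset E) (h : SplitLC d r X) :
    ∃ P : Finpartition X, r X = ∑ p ∈ P.parts, r p ∧ ∀ p ∈ P.parts,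
      (d - 1) * p.card = d * r p ∧
      ∀ S ⊆ p, S.Nonempty → S ≠ p → (d - 1) * S.card < d * r S := by
  induction hn : X.card using Nat.strong_induction_on generalizing X with
  | _ N ih =>
  rcases X.eq_empty_or_nonempty with rfl | hX
  · refine ⟨Finpartition.empty _, by simpa using hr.empty, ?_⟩
    intro p hp
    simp at hp
  · obtain ⟨B, hB, hBmin⟩ := Finset.exists_min_image
      (X.powerset.filter (fun S => S.Nonempty ∧ (d - 1) * S.card = d * r S)) Finset.card
      ⟨X, by simp [hX, h.1]⟩
    rw [Finset.mem_filter, Finset.mem_powerset] at hB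
    obtain ⟨hBX, hBne, hBt⟩ := hB
    have hmin : ∀ S ⊆ B, S.Nonempty → S ≠ B → (d - 1) * S.card < d * r S := by
      intro S hS hSne hSB
      refine lt_of_le_of_ne (h.2 S (hS.trans hBX)).1 ?_
      intro heq
      have h1 := hBmin S (by
        rw [Finset.mem_filter, Finset.mem_powerset]
        exact ⟨hS.trans hBX, hSne, heq⟩)
      exact hSB (Finset.eq_of_subset_of_card_le hS h1)
    have hdis : Disjoint B (X \ B) := Finset.disjoint_sdiff
    have hun : B ∪ (X \ B) = X := Finset.union_sdiff_of_subset hBX
    have hsum : r B + r (X \ B) = r X := (h.2 B hBX).2 hBt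
    have hadd : r (B ∪ (X \ B)) = r B + r (X \ B) := by rw [hun, hsum]
    have hcard : B.card + (X \ B).card = X.card := by
      rw [Finset.card_sdiff_of_subset hBX]
      have := Finset.card_le_card hBX
      omega
    have hsp : SplitLC d r (X \ B) := by
      refine ⟨?_, ?_⟩
      · have h1 := h.1
        rw [← hcard, ← hsum, mul_add, mul_add] at h1
        omega
      · intro S hS
        have hSX : S ⊆ X := hS.trans Finset.sdiff_subset
        refine ⟨(h.2 S hSX).1, ?_⟩
        intro heq
        have h1 := (h.2 S hSX).2 heq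
        have h2 : X \ S = B ∪ ((X \ B) \ S) := by
          ext a
          simp only [Finset.mem_sdiff, Finset.mem_union]
          constructor
          · rintro ⟨h1, h2⟩
            by_cases hb : a ∈ B
            · exact Or.inl hb
            · exact Or.inr ⟨⟨h1, hb⟩, h2⟩
          · rintro (hb | ⟨⟨h1, _⟩, h3⟩)
            · exact ⟨hBX hb, fun hs => (Finset.mem_sdiff.mp (hS hs)).2 hb⟩
            · exact ⟨h1, h3⟩
        rw [h2, hr.additive hdis hadd subset_rfl Finset.sdiff_subset] at h1
        omega
    have hlt : (X \ B).card < N := by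
      have := hBne.card_pos
      omega
    obtain ⟨P, hP1, hP2⟩ := ih _ hlt (X \ B) hsp rfl
    have hBP : B ∉ P.parts := by
      intro hB
      have h1 := P.le hB
      obtain ⟨a, ha⟩ := hBne
      have h2 : a ∈ X \ B := h1 ha
      exact (Finset.mem_sdiff.mp h2).2 ha
    refine ⟨P.extend (Finset.nonempty_iff_ne_empty.mp hBne) hdis.symm (by
      rw [Finset.sup_eq_union, Finset.union_comm]; exact hun), ?_, ?_⟩
    · rw [Finpartition.extend_parts, Finset.sum_insert hBP, ← hP1, hsum]
    · intro p hp
      rw [Finpartition.extend_parts, Finset.mem_insert] at hp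
      rcases hp with rfl | hp
      · exact ⟨hBt, hmin⟩
      · exact hP2 p hp

theorem isRk_rk {k : Type*} [Field k] {n : ℕ} (l : E → Fin (n + 1) → k) (hl : ∀ e, l e ≠ 0) :
    IsRk (rk l) := by
  refine ⟨?_, ?_, ?_, ?_⟩
  · rw [rk]
    simp
  · intro e
    rw [rk, Finset.coe_singleton, Set.image_singleton]
    exact finrank_span_singleton (hl e)
  · intro S T h
    exact Submodule.finrank_mono (Submodule.span_mono (Set.image_mono (by exact_mod_cast h)))
  · intro S T
    have h1 : Submodule.span k (l '' ((S ∪ T : Finset E) : Set E)) =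
        Submodule.span k (l '' (S : Set E)) ⊔ Submodule.span k (l '' (T : Set E)) := by
      rw [Finset.coe_union, Set.image_union, Submodule.span_union]
    have h2 : Submodule.span k (l '' ((S ∩ T : Finset E) : Set E)) ≤
        Submodule.span k (l '' (S : Set E)) ⊓ Submodule.span k (l '' (T : Set E)) := by
      apply le_inf
      · apply Submodule.span_mono
        apply Set.image_mono
        exact_mod_cast Finset.inter_subset_left
      · apply Submodule.span_mono
        apply Set.image_mono
        exact_mod_cast Finset.inter_subset_right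
    have h3 := Submodule.finrank_sup_add_finrank_inf_eq (Submodule.span k (l '' (S : Set E)))
      (Submodule.span k (l '' (T : Set E)))
    rw [rk, rk, rk, rk, h1, ← h3]
    have := Submodule.finrank_mono h2
    omega

end Pool.Agent.Helper70.HA
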