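import Mathlib
import Pool.Agent.Helper70.HA.C1
import Pool.Agent.Helper70.HA.C3

namespace Pool.Agent.Helper70.HA

variable {E : Type*} [DecidableEq E]

/-- A subset of maximal excess. -/
theorem exists_center {r : Finset E → ℕ} (hr : IsRk r) {d : ℕ} (hd : 2 ≤ d)
    (X : Finset E) (hX : X.Nonempty) :
    ∃ A ⊆ X, r A < r X ∧ d * r A ≤ (d - 1) * A.card ∧
      ∀ S ⊆ X \ A, S.Nonempty → r (A ∪ S) < r X →
        (d - 1) * S.card + d * r A < d * r (A ∪ S) := by
  classical
  obtain ⟨D, rfl⟩ : ∃ D, d = D + 1 := ⟨d - 1, by omega⟩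
  simp only [Nat.add_sub_cancel]
  have hrX : 1 ≤ r X := by
    obtain ⟨e, he⟩ := hX
    have := hr.mono (Finset.singleton_subset_iff.mpr he)
    rwa [hr.single] at this
  let key : Finset E → ℤ := fun A =>
    ((D : ℤ) * A.card - (D + 1) * r A) * (X.card + 1) + A.card
  obtain ⟨A, hA, hmax⟩ := Finset.exists_max_image (X.powerset.filter (fun A => r A < r X)) key
    ⟨∅, by simp [hr.empty]; omega⟩
  rw [Finset.mem_filter, Finset.mem_powerset] at hA
  obtain ⟨hAX, hAr⟩ := hA
  have hAc := Finset.card_le_card hAX
  refine ⟨A, hAX, hAr, ?_, ?_⟩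
  · have h0 := hmax ∅ (by simp [hr.empty]; omega)
    simp only [key, hr.empty, Finset.card_empty] at h0
    by_contra hcon
    push Not at hcon
    have h1 : (D : ℤ) * A.card - (D + 1) * r A ≤ -1 := by
      have : ((D * A.card : ℕ) : ℤ) < (((D + 1) * r A : ℕ) : ℤ) := by exact_mod_cast hcon
      push_cast at this
      linarith
    have h2 : ((D : ℤ) * A.card - (D + 1) * r A) * (X.card + 1) ≤ -1 * (X.card + 1) :=
      mul_le_mul_of_nonneg_right h1 (by positivity)
    have h3 : (A.card : ℤ) ≤ X.card := by exact_mod_cast hAc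
    push_cast at h0
    linarith
  · intro S hS hSne hSr
    by_contra hcon
    push Not at hcon
    have hdis : Disjoint A S := by
      rw [Finset.disjoint_left]
      intro a ha hs
      exact (Finset.mem_sdiff.mp (hS hs)).2 ha
    have hc : (A ∪ S).card = A.card + S.card := Finset.card_union_of_disjoint hdis
    have h0 := hmax (A ∪ S) (by
      rw [Finset.mem_filter, Finset.mem_powerset]
      exact ⟨Finset.union_subset hAX (hS.trans Finset.sdiff_subset), hSr⟩)
    simp only [key, hc] at h0
    have h1 : (D : ℤ) * A.card - (D + 1) * r A ≤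
        (D : ℤ) * (A.card + S.card : ℕ) - (D + 1) * r (A ∪ S) := by
      have : (((D + 1) * r (A ∪ S) : ℕ) : ℤ) ≤ ((D * S.card + (D + 1) * r A : ℕ) : ℤ) := by
        exact_mod_cast hcon
      push_cast at this ⊢
      linarith
    have h2 := mul_le_mul_of_nonneg_right h1 (by positivity : (0 : ℤ) ≤ X.card + 1)
    have h3 : (1 : ℤ) ≤ S.card := by exact_mod_cast hSne.card_pos
    push_cast at h0 h2
    linarith

theorem dvd_of_tight {d a b : ℕ} (hd : 2 ≤ d) (h : (d - 1) * a = d * b) : d ∣ a := by
  have h1 : d ∣ (d - 1) * a := ⟨b, h⟩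
  have h2 : Nat.Coprime d (d - 1) := by
    have h3 : Nat.Coprime (d - 1 + 1) (d - 1) := by
      rw [Nat.coprime_self_add_left]
      exact Nat.coprime_one_left _
    have h4 : d - 1 + 1 = d := by omega
    rwa [h4] at h3
  exact h2.dvd_of_dvd_mul_left h1

theorem splitLC_extend {r : Finset E → ℕ} (hr : IsRk r) {d : ℕ} (hd : 2 ≤ d)
    {X A : Finset E} (hAX : A ⊆ X) (hX : (d - 1) * X.card = d * r X)
    (hY : (d - 1) * (X \ A).card = d * r (X \ A)) (hsum : r (X \ A) + r A = r X)
    (hkey : ∀ S ⊆ X \ A, S.Nonempty → r (A ∪ S) < r X →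
        (d - 1) * S.card + d * r A < d * r (A ∪ S))
    (hA : SplitLC d r A) : SplitLC d r X := by
  have hdis : Disjoint A (X \ A) := Finset.disjoint_sdiff
  have hun : A ∪ (X \ A) = X := Finset.union_sdiff_of_subset hAX
  have hadd : r (A ∪ (X \ A)) = r A + r (X \ A) := by rw [hun]; omega
  refine ⟨hX, ?_⟩
  intro S hS
  set S1 := S ∩ A with hS1
  set S2 := S \ A with hS2
  have hS1A : S1 ⊆ A := Finset.inter_subset_right
  have hS2Y : S2 ⊆ X \ A := Finset.sdiff_subset_sdiff hS subset_rfl
  have hSun : S = S1 ∪ S2 := by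
    rw [hS1, hS2, Finset.union_comm, Finset.sdiff_union_inter]
  have hSr : r S = r S1 + r S2 := by
    conv_lhs => rw [hSun]
    exact hr.additive hdis hadd hS1A hS2Y
  have hSc : S.card = S1.card + S2.card := by
    conv_lhs => rw [hSun]
    exact Finset.card_union_of_disjoint (Finset.disjoint_of_subset_left hS1A
      (Finset.disjoint_of_subset_right hS2Y hdis))
  have h1 := hA.2 S1 hS1A
  -- the part outside `A`
  have h2 : (d - 1) * S2.card ≤ d * r S2 ∧ ((d - 1) * S2.card = d * r S2 → S2 = ∅ ∨ S2 = X \ A) := by
    rcases S2.eq_empty_or_nonempty with he | hne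
    · rw [he]
      simp
    · have hrA : r (A ∪ S2) = r A + r S2 := hr.additive hdis hadd subset_rfl hS2Y
      rcases lt_or_ge (r (A ∪ S2)) (r X) with hlt | hge
      · have h3 := hkey S2 hS2Y hne hlt
        rw [hrA, mul_add] at h3
        exact ⟨by omega, fun h => by omega⟩
      · have h3 : r S2 = r (X \ A) := by
          have := hr.mono hS2Y
          omega
        have h4 := Finset.card_le_card hS2Y
        have h5 : (d - 1) * S2.card ≤ (d - 1) * (X \ A).card := Nat.mul_le_mul_left _ h4
        rw [h3, ← hY]
        refine ⟨h5, fun h => Or.inr ?_⟩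
        have h6 : (X \ A).card ≤ S2.card := by
          have h7 := Nat.eq_of_mul_eq_mul_left (by omega) h
          omega
        exact Finset.eq_of_subset_of_card_le hS2Y h6
  refine ⟨by rw [hSr, hSc, mul_add, mul_add]; omega, ?_⟩
  intro heq
  rw [hSr, hSc, mul_add, mul_add] at heq
  have h3 : (d - 1) * S1.card = d * r S1 := by omega
  have h4 : (d - 1) * S2.card = d * r S2 := by omega
  have h5 := h1.2 h3
  have h6 := h2.2 h4
  have hcomp : X \ S = (A \ S1) ∪ ((X \ A) \ S2) := by
    ext a
    simp only [hS1, hS2, Finset.mem_sdiff, Finset.mem_union, Finset.mem_inter]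
    constructor
    · rintro ⟨ha, hs⟩
      by_cases hA : a ∈ A
      · exact Or.inl ⟨hA, fun h => hs h.1⟩
      · exact Or.inr ⟨⟨ha, hA⟩, fun h => hs h.1⟩
    · rintro (⟨ha, hs⟩ | ⟨⟨ha, hA⟩, hs⟩)
      · exact ⟨hAX ha, fun h => hs ⟨h, ha⟩⟩
      · exact ⟨ha, fun h => hs ⟨h, hA⟩⟩
  rw [hcomp, hr.additive hdis hadd Finset.sdiff_subset Finset.sdiff_subset, hSr]
  have h7 : r S2 + r ((X \ A) \ S2) = r (X \ A) := by
    rcases h6 with h | h
    · rw [h, hr.empty, Finset.sdiff_empty, zero_add]
    · rw [h, Finset.sdiff_self, hr.empty, add_zero]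
  omega

theorem good_extend {r : Finset E → ℕ} (hr : IsRk r) {d : ℕ} {m : E → ℕ}
    {X A : Finset E} (hAX : A ⊆ X) (hne : (X \ A).Nonempty) (hsum : r (X \ A) + r A = r X)
    (hm : d ∣ ∑ e ∈ X \ A, m e) (hA : Good d m r A) : Good d m r X := by
  have hdis : Disjoint A (X \ A) := Finset.disjoint_sdiff
  have hun : A ∪ (X \ A) = X := Finset.union_sdiff_of_subset hAX
  have hadd : r (A ∪ (X \ A)) = r A + r (X \ A) := by rw [hun]; omega
  obtain ⟨P, hP1, hP2, p, hp, e, he, hpe⟩ := hA
  refine ⟨P.extend (Finset.nonempty_iff_ne_empty.mp hne) hdis hun, ?_, ?_,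
    p, by rw [Finpartition.extend_parts]; exact Finset.mem_insert_of_mem hp, e, he, hpe⟩
  · intro q hq
    rw [Finpartition.extend_parts, Finset.mem_insert] at hq
    rcases hq with rfl | hq
    · exact hm
    · exact hP1 q hq
  · intro G hG hGne
    rw [Finpartition.extend_parts] at hG
    by_cases hY : (X \ A) ∈ G
    · set G' := G.erase (X \ A) with hG'
      have hGi : insert (X \ A) G' = G := Finset.insert_erase hY
      have hG'P : G' ⊆ P.parts := by
        intro q hq
        rw [hG', Finset.mem_erase] at hq
        exact (Finset.mem_insert.mp (hG hq.2)).resolve_left hq.1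
      have hnot : (X \ A) ∉ G' := Finset.notMem_erase _ _
      have hsupA : G'.sup id ≤ A := by
        apply Finset.sup_le
        intro q hq
        exact P.le (hG'P hq)
      rw [← hGi, Finset.sum_insert hnot, Finset.sup_insert, Finset.card_insert_of_notMem hnot, id,
        Finset.sup_eq_union, Finset.union_comm,
        hr.additive hdis hadd hsupA subset_rfl]
      rcases G'.eq_empty_or_nonempty with h0 | h0
      · rw [h0]
        simp
      · have := hP2 G' hG'P h0
        omega
    · refine hP2 G ?_ hGne
      intro q hq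
      refine (Finset.mem_insert.mp (hG hq)).resolve_left ?_
      rintro rfl
      exact hY hq

theorem good_of_not_split {r : Finset E → ℕ} (hr : IsRk r) {d : ℕ} (hd : 2 ≤ d) {m : E → ℕ}
    {X A : Finset E} (hAX : A ⊆ X) (hA : r A < r X) (hm : d ∣ ∑ e ∈ X, m e)
    (hN : (d - 1) * (X \ A).card + d * r A ≤ d * r X)
    (hkey : ∀ S ⊆ X \ A, S.Nonempty → r (A ∪ S) < r X →
        (d - 1) * S.card + d * r A < d * r (A ∪ S))
    (hns : (d - 1) * (X \ A).card + d * r A = d * r X → r (X \ A) + r A ≠ r X) :
    Good d m r X := by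
  obtain ⟨Z, hZY, hZc, P, hP⟩ := exists_blocks d (by omega) m (X \ A)
  obtain ⟨D, rfl⟩ : ∃ D, d = D + 1 := ⟨d - 1, by omega⟩
  simp only [Nat.add_sub_cancel] at hN hkey hns
  have hcG : ∀ G ⊆ P.parts, (G.sup id).card = ∑ p ∈ G, p.card := by
    intro G hG
    rw [Finset.sup_eq_biUnion]
    apply Finset.card_biUnion
    intro a ha b hb hab
    exact P.disjoint (Finset.mem_coe.mpr (hG ha)) (Finset.mem_coe.mpr (hG hb)) hab
  have hcG2 : ∀ G ⊆ P.parts, (G.sup id).card ≤ (D + 1) * G.card := by
    intro G hG
    rw [hcG G hG, mul_comm]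
    have := Finset.sum_le_card_nsmul G (fun p => p.card) (D + 1) (fun p hp => (hP p (hG hp)).1)
    simpa using this
  have hsubY : ∀ G ⊆ P.parts, G.sup id ⊆ (X \ A) \ Z := by
    intro G hG
    apply Finset.sup_le
    intro q hq
    exact P.le (hG hq)
  have hYc : ∀ S ⊆ X \ A, D * S.card ≤ D * (X \ A).card := fun S hS =>
    Nat.mul_le_mul_left _ (Finset.card_le_card hS)
  -- the first inequality
  have hb1 : ∀ G ⊆ P.parts, G.Nonempty → (G.sup id).card < r (G.sup id) + G.card := by
    intro G hG hGne
    set S := G.sup id with hS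
    have hSY : S ⊆ X \ A := (hsubY G hG).trans Finset.sdiff_subset
    have hSne : S.Nonempty := by
      obtain ⟨q, hq⟩ := hGne
      obtain ⟨a, ha⟩ := P.nonempty_of_mem_parts (hG hq)
      exact ⟨a, (Finset.le_sup (f := id) hq : q ≤ S) ha⟩
    have hc := hcG2 G hG
    rw [← hS] at hc
    have hkey2 : D * S.card < (D + 1) * r S := by
      have hun := hr.union_le A S
      rcases lt_or_ge (r (A ∪ S)) (r X) with hlt | hge
      · have h1 := hkey S hSY hSne hlt
        have h2 : (D + 1) * r (A ∪ S) ≤ (D + 1) * (r A + r S) := Nat.mul_le_mul_left _ hun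
        rw [mul_add] at h2
        omega
      · have h1 : (D + 1) * r X ≤ (D + 1) * (r A + r S) := Nat.mul_le_mul_left _ (by omega)
        rw [mul_add] at h1
        have h2 := hYc S hSY
        by_contra hcon
        push Not at hcon
        have h3 : D * (X \ A).card + (D + 1) * r A = (D + 1) * r X := by omega
        have h4 : D * S.card = D * (X \ A).card := by omega
        have h5 : S.card = (X \ A).card := Nat.eq_of_mul_eq_mul_left (by omega) h4
        have h6 : S = X \ A := Finset.eq_of_subset_of_card_le hSY (by omega)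
        have h7 := hns h3
        rw [← h6] at h7
        have h8 : (D + 1) * (r A + r S) = (D + 1) * r X := by rw [mul_add]; omega
        have h9 := Nat.eq_of_mul_eq_mul_left (by omega) h8
        omega
    have h1 : (D + 1) * S.card < (D + 1) * (r S + G.card) := by
      rw [mul_add, add_mul D 1 S.card]
      omega
    exact Nat.lt_of_mul_lt_mul_left h1
  -- the second inequality
  have hb2 : ∀ G ⊆ P.parts, (G.sup id ∪ Z).card + r A ≤ r (A ∪ (G.sup id ∪ Z)) + G.card := by
    intro G hG
    set T := G.sup id ∪ Z with hT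
    have hTY : T ⊆ X \ A := Finset.union_subset ((hsubY G hG).trans Finset.sdiff_subset) hZY
    rcases T.eq_empty_or_nonempty with h0 | hTne
    · rw [h0]
      simp
    · have hTc : T.card ≤ (D + 1) * G.card + D := by
        have h1 := Finset.card_union_le (G.sup id) Z
        rw [← hT] at h1
        have h2 := hcG2 G hG
        omega
      have h1 : (D + 1) * (T.card + r A) < (D + 1) * (r (A ∪ T) + G.card + 1) := by
        rw [mul_add, mul_add, mul_add, add_mul D 1 T.card]
        rcases lt_or_ge (r (A ∪ T)) (r X) with hlt | hge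
        · have h1 := hkey T hTY hTne hlt
          omega
        · have h2 := hYc T hTY
          have h3 : (D + 1) * r X ≤ (D + 1) * r (A ∪ T) := Nat.mul_le_mul_left _ hge
          omega
      have h2 := Nat.lt_of_mul_lt_mul_left h1
      omega
  have hrle : ∀ G : Finset (Finset E), ∑ p ∈ G, r p ≤ ∑ p ∈ G, p.card := fun G =>
    Finset.sum_le_sum fun p _ => hr.le_card p
  -- a part with a coloop
  have hcol : ∀ p ∈ P.parts, ∀ e ∈ p, r (p.erase e) < r p := by
    intro p hp e he
    have h1 := hb1 {p} (Finset.singleton_subset_iff.mpr hp) (Finset.singleton_nonempty p)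
    rw [Finset.sup_singleton, Finset.card_singleton, id] at h1
    have h2 := hr.le_card (p.erase e)
    rw [Finset.card_erase_of_mem he] at h2
    have h3 : 0 < p.card := Finset.card_pos.mpr ⟨e, he⟩
    omega
  by_cases hAZ : A ∪ Z = ∅
  · rw [Finset.union_eq_empty] at hAZ
    obtain ⟨hA0, hZ0⟩ := hAZ
    have hX : (X \ A) \ Z = X := by rw [hA0, hZ0]; simp
    have hXne : X.Nonempty := by
      rw [Finset.nonempty_iff_ne_empty]
      rintro rfl
      rw [hr.empty] at hA
      omega
    refine ⟨P.copy hX, ?_, ?_, ?_⟩
    · intro p hp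
      exact (hP p (by simpa using hp)).2
    · intro G hG hGne
      have hG' : G ⊆ P.parts := by simpa using hG
      have h1 := hb1 G hG' hGne
      rw [hcG G hG'] at h1
      exact lt_of_le_of_lt (hrle G) h1
    · have hPne : P.parts.Nonempty := by
        rw [P.parts_nonempty_iff]
        rw [hX]
        exact Finset.nonempty_iff_ne_empty.mp hXne
      obtain ⟨p, hp⟩ := hPne
      obtain ⟨e, he⟩ := P.nonempty_of_mem_parts hp
      exact ⟨p, by simpa using hp, e, he, hcol p hp e he⟩
  · have hdis : Disjoint ((X \ A) \ Z) (A ∪ Z) := by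
      rw [Finset.disjoint_left]
      intro a ha hb
      rw [Finset.mem_sdiff, Finset.mem_sdiff] at ha
      rcases Finset.mem_union.mp hb with h | h
      · exact ha.1.2 h
      · exact ha.2 h
    have hun : ((X \ A) \ Z) ∪ (A ∪ Z) = X := by
      ext a
      simp only [Finset.mem_union, Finset.mem_sdiff]
      constructor
      · rintro (h | h | h)
        · exact h.1.1
        · exact hAX h
        · exact (Finset.mem_sdiff.mp (hZY h)).1
      · intro h
        by_cases h1 : a ∈ A
        · exact Or.inr (Or.inl h1)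
        · by_cases h2 : a ∈ Z
          · exact Or.inr (Or.inr h2)
          · exact Or.inl ⟨⟨h, h1⟩, h2⟩
    have hnot : A ∪ Z ∉ P.parts := by
      intro h
      obtain ⟨a, ha⟩ := P.nonempty_of_mem_parts h
      exact Finset.disjoint_left.mp hdis (P.le h ha) ha
    refine ⟨P.extend hAZ hdis hun, ?_, ?_, ?_⟩
    · intro p hp
      rw [Finpartition.extend_parts, Finset.mem_insert] at hp
      rcases hp with rfl | hp
      · have h1 : ∑ e ∈ X, m e = ∑ e ∈ (X \ A) \ Z, m e + ∑ e ∈ A ∪ Z, m e := by
          conv_lhs => rw [← hun]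
          exact Finset.sum_union hdis
        have h2 : D + 1 ∣ ∑ e ∈ (X \ A) \ Z, m e := by
          have h3 : ∑ e ∈ (X \ A) \ Z, m e = ∑ p ∈ P.parts, ∑ e ∈ p, m e := by
            conv_lhs => rw [← P.biUnion_parts]
            exact Finset.sum_biUnion P.disjoint
          rw [h3]
          exact Finset.dvd_sum fun p hp => (hP p hp).2
        rw [h1] at hm
        exact (Nat.dvd_add_right h2).mp hm
      · exact (hP p hp).2
    · intro G hG hGne
      rw [Finpartition.extend_parts] at hG
      by_cases hY : (A ∪ Z) ∈ G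
      · set G' := G.erase (A ∪ Z) with hG'
        have hGi : insert (A ∪ Z) G' = G := Finset.insert_erase hY
        have hG'P : G' ⊆ P.parts := by
          intro q hq
          rw [hG', Finset.mem_erase] at hq
          exact (Finset.mem_insert.mp (hG hq.2)).resolve_left hq.1
        have hnot' : (A ∪ Z) ∉ G' := Finset.notMem_erase _ _
        rw [← hGi, Finset.sum_insert hnot', Finset.sup_insert,
          Finset.card_insert_of_notMem hnot', id, Finset.sup_eq_union]
        have h1 := hb2 G' hG'P
        have h2 := hrle G'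
        rw [← hcG G' hG'P] at h2
        have h3 : (G'.sup id ∪ Z).card = (G'.sup id).card + Z.card := by
          apply Finset.card_union_of_disjoint
          rw [Finset.disjoint_left]
          intro a ha hz
          exact (Finset.mem_sdiff.mp (hsubY G' hG'P ha)).2 hz
        have h4 : A ∪ Z ∪ G'.sup id = A ∪ (G'.sup id ∪ Z) := by
          rw [Finset.union_assoc, Finset.union_comm Z]
        rw [h4]
        have h5 := hr.union_le A Z
        have h6 := hr.le_card Z
        omega
      · have hG' : G ⊆ P.parts := by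
          intro q hq
          refine (Finset.mem_insert.mp (hG hq)).resolve_left ?_
          rintro rfl
          exact hY hq
        have h1 := hb1 G hG' hGne
        rw [hcG G hG'] at h1
        exact lt_of_le_of_lt (hrle G) h1
    · rcases P.parts.eq_empty_or_nonempty with h0 | ⟨p, hp⟩
      · have hYne : (X \ A).Nonempty := by
          rw [Finset.sdiff_nonempty]
          intro h
          have := hr.mono h
          omega
        have hYZ : (X \ A) \ Z = ∅ := by
          rw [← P.biUnion_parts, h0]
          rfl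
        have hZY' : Z = X \ A := subset_antisymm hZY (Finset.sdiff_eq_empty_iff_subset.mp hYZ)
        obtain ⟨e, he⟩ := hYne
        rw [← hZY'] at he
        refine ⟨A ∪ Z, by rw [Finpartition.extend_parts]; exact Finset.mem_insert_self _ _, e,
          Finset.mem_union_right _ he, ?_⟩
        have h1 := hb2 ∅ (Finset.empty_subset _)
        rw [Finset.sup_empty, Finset.card_empty, Finset.bot_eq_empty, Finset.empty_union] at h1
        have h2 : (A ∪ Z).erase e ⊆ A ∪ Z.erase e := by
          intro a ha
          rw [Finset.mem_erase, Finset.mem_union] at ha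
          rw [Finset.mem_union, Finset.mem_erase]
          rcases ha.2 with h | h
          · exact Or.inl h
          · exact Or.inr ⟨ha.1, h⟩
        have h3 := hr.mono h2
        have h4 := hr.union_le A (Z.erase e)
        have h5 := hr.le_card (Z.erase e)
        rw [Finset.card_erase_of_mem he] at h5
        have h6 : 0 < Z.card := Finset.card_pos.mpr ⟨e, he⟩
        omega
      · obtain ⟨e, he⟩ := P.nonempty_of_mem_parts hp
        exact ⟨p, by rw [Finpartition.extend_parts]; exact Finset.mem_insert_of_mem hp, e, he,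
          hcol p hp e he⟩

/-- The dichotomy. -/
theorem dichotomy {r : Finset E → ℕ} (hr : IsRk r) {d : ℕ} (hd : 2 ≤ d) (m : E → ℕ)
    (X : Finset E) (hX : X.Nonempty) (hK : (d - 1) * X.card ≤ d * r X)
    (hm : d ∣ ∑ e ∈ X, m e) (heq : (d - 1) * X.card = d * r X → ∀ e ∈ X, m e = 1) :
    SplitLC d r X ∨ Good d m r X := by
  induction hn : X.card using Nat.strong_induction_on generalizing X with
  | _ N ih =>
  obtain ⟨A, hAX, hAr, hAe, hkey⟩ := exists_center hr hd X hX
  have hcard : A.card + (X \ A).card = X.card := by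
    rw [Finset.card_sdiff_of_subset hAX]
    have := Finset.card_le_card hAX
    omega
  have hcard2 : (d - 1) * A.card + (d - 1) * (X \ A).card = (d - 1) * X.card := by
    rw [← mul_add, hcard]
  by_cases hsp : (d - 1) * (X \ A).card + d * r A = d * r X ∧ r (X \ A) + r A = r X
  · obtain ⟨h1, h2⟩ := hsp
    have hXt : (d - 1) * X.card = d * r X := by omega
    have hAt : (d - 1) * A.card = d * r A := by omega
    have hYt : (d - 1) * (X \ A).card = d * r (X \ A) := by
      rw [← h2, mul_add] at h1
      omega
    have hm1 := heq hXt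
    have hYne : (X \ A).Nonempty := by
      rw [Finset.sdiff_nonempty]
      intro h
      have := hr.mono h
      omega
    rcases A.eq_empty_or_nonempty with hA0 | hAne
    · left
      refine splitLC_extend hr hd hAX hXt hYt h2 hkey ?_
      rw [hA0]
      refine ⟨by rw [hr.empty]; simp, ?_⟩
      intro S hS
      rw [Finset.subset_empty.mp hS, hr.empty]
      simp [hr.empty]
    · have hlt : A.card < N := by
        have := hYne.card_pos
        omega
      rcases ih A.card hlt A hAne hAt.le (by
        rw [Finset.sum_congr rfl (fun e he => hm1 e (hAX he))]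
        simpa using dvd_of_tight hd hAt) (fun _ e he => hm1 e (hAX he)) rfl with h | h
      · exact Or.inl (splitLC_extend hr hd hAX hXt hYt h2 hkey h)
      · right
        refine good_extend hr hAX hYne h2 ?_ h
        rw [Finset.sum_congr rfl (fun e he => hm1 e (Finset.sdiff_subset he))]
        simpa using dvd_of_tight hd hYt
  · right
    refine good_of_not_split hr hd hAX hAr hm (by omega) hkey ?_
    intro h1 h2
    exact hsp ⟨h1, h2⟩

end Pool.Agent.Helper70.HA
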