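import Mathlib
import Pool.Agent.Helper70.HA.Defs

namespace Pool.Agent.Helper70.HA

open MvPolynomial

/-- The row operators: for `Sum.inl i` the identity on the block `i` and zero on the other blocks,
for `Sum.inr t` the partial derivative. -/
noncomputable def rowOp2 {k : Type*} [Field k] {m : ℕ} {I : Type*} [DecidableEq I] {N : I → ℕ}
    (o : I ⊕ Fin m) (a : Σ i : I, Fin (N i + 1)) (Q : MvPolynomial (Fin m) k) :
    MvPolynomial (Fin m) k :=
  match o with
  | Sum.inl i => if a.1 = i then Q else 0
  | Sum.inr t => pderiv t Q

end Pool.Agent.Helper70.HA
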