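import Mathlib
import Pool.Agent.Helper70.HA.NDefs

namespace Pool.Agent.Helper70.HA

open MvPolynomial Module Matrix Pool.Agent.Helper98.KA

/-- Some maximal minor does not vanish. -/
theorem exists_minor2 {k L : Type*} [Field k] [CharZero k] [Field L] [Algebra k L] {m n : ℕ}
    [Algebra (MvPolynomial (Fin m) k) L] [IsScalarTower k (MvPolynomial (Fin m) k) L]
    (hinj : Function.Injective (algebraMap (MvPolynomial (Fin m) k) L))
    {I : Type*} [Fintype I] [DecidableEq I] {N : I → ℕ}
    (x : Fin n → L) (hx : AlgebraicIndependent k x)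
    (v : (Σ i : I, Fin (N i + 1)) → Fin (n + 1) → k) (hv : LinearIndependent k v)
    (h : I → L) (hh : ∀ i, h i ≠ 0) (H : (Σ i : I, Fin (N i + 1)) → MvPolynomial (Fin m) k)
    (hH : ∀ a, algebraMap (MvPolynomial (Fin m) k) L (H a) * h a.1 = vmap (F := L) (v a) ⬝ᵥ pt x) :
    ∃ ρ : (Σ i : I, Fin (N i + 1)) → I ⊕ Fin m,
      (Matrix.of fun r a => rowOp2 (ρ r) a (H a) :
        Matrix (Σ i : I, Fin (N i + 1)) (Σ i : I, Fin (N i + 1))
          (MvPolynomial (Fin m) k)).det ≠ 0 := by
  classical
  set φ := algebraMap (MvPolynomial (Fin m) k) L with hφ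
  let A : Type _ := Σ i : I, Fin (N i + 1)
  let r : I ⊕ Fin m → A → L := fun o a => φ (rowOp2 o a (H a))
  have hspan : Submodule.span L (Set.range r) = ⊤ := by
    by_contra hne
    obtain ⟨v0, hv0⟩ : ∃ v0, v0 ∉ Submodule.span L (Set.range r) := by
      by_contra hall
      push Not at hall
      exact hne (eq_top_iff.mpr fun v _ => hall v)
    obtain ⟨f, hf0, hf⟩ := Submodule.exists_le_ker_of_notMem hv0
    let lam : A → L := fun a => f (Pi.single a 1)
    have hfe : ∀ u : A → L, f u = ∑ a, u a * lam a := by
      intro u
      conv_lhs => rw [pi_eq_sum_univ u]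
      rw [map_sum]
      apply Finset.sum_congr rfl
      intro a _
      rw [map_smul, smul_eq_mul]
      congr 2
      ext b
      by_cases h : a = b
      · subst h; simp
      · rw [if_neg h, Pi.single_eq_of_ne (fun h' => h h'.symm)]
    have hr : ∀ o, ∑ a, r o a * lam a = 0 := by
      intro o
      rw [← hfe]
      exact hf (Submodule.subset_span ⟨o, rfl⟩)
    have hδ : ∀ δ : Derivation k L L, ∑ a, δ (φ (H a)) * lam a = 0 := by
      intro δ
      have h1 : ∀ a : A, δ (φ (H a)) * lam a =
          ∑ j, δ (φ (X j)) * (r (Sum.inr j) a * lam a) := by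
        intro a
        rw [derivation_apply_eq δ (H a), Finset.sum_mul]
        apply Finset.sum_congr rfl
        intro j _
        change _ = δ (φ (X j)) * (φ (pderiv j (H a)) * lam a)
        ring
      rw [Finset.sum_congr rfl (fun a _ => h1 a), Finset.sum_comm]
      apply Finset.sum_eq_zero
      intro j _
      rw [← Finset.mul_sum, hr (Sum.inr j), mul_zero]
    have hblk : ∀ i : I, ∑ a : A, (if a.1 = i then φ (H a) * lam a else 0) = 0 := by
      intro i
      refine Eq.trans ?_ (hr (Sum.inl i))
      apply Finset.sum_congr rfl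
      intro a _
      change _ = φ (if a.1 = i then H a else 0) * lam a
      split_ifs
      · rfl
      · rw [map_zero, zero_mul]
    -- weighted block sums vanish
    have hwt : ∀ c : I → L, ∑ a : A, c a.1 * (φ (H a) * lam a) = 0 := by
      intro c
      have h1 : ∀ a : A, c a.1 * (φ (H a) * lam a) =
          ∑ i, c i * (if a.1 = i then φ (H a) * lam a else 0) := by
        intro a
        rw [Finset.sum_eq_single a.1]
        · rw [if_pos rfl]
        · intro b _ hb
          rw [if_neg (fun h' => hb h'.symm), mul_zero]
        · intro h'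
          exact absurd (Finset.mem_univ _) h'
      rw [Finset.sum_congr rfl (fun a _ => h1 a), Finset.sum_comm]
      apply Finset.sum_eq_zero
      intro i _
      rw [← Finset.mul_sum, hblk i, mul_zero]
    let mu : A → L := fun a => lam a / h a.1
    have hmu : ∀ a, lam a = mu a * h a.1 := fun a => by
      change lam a = lam a / h a.1 * h a.1
      rw [div_mul_cancel₀ _ (hh _)]
    let w : Fin (n + 1) → L := ∑ a, mu a • vmap (F := L) (v a)
    have hwd : ∀ y : Fin (n + 1) → L, w ⬝ᵥ y = ∑ a, mu a * (vmap (F := L) (v a) ⬝ᵥ y) := by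
      intro y
      change (∑ a, mu a • vmap (F := L) (v a)) ⬝ᵥ y = _
      rw [sum_dotProduct]
      apply Finset.sum_congr rfl
      intro a _
      rw [smul_dotProduct, smul_eq_mul]
    have hw1 : w ⬝ᵥ pt x = 0 := by
      rw [hwd]
      refine Eq.trans ?_ (hwt (fun _ => 1))
      apply Finset.sum_congr rfl
      intro a _
      rw [← hH a, hmu a]
      ring
    have hw2 : ∀ δ : Derivation k L L, w ⬝ᵥ dvec δ (pt x) = 0 := by
      intro δ
      rw [hwd]
      have h1 : ∀ a : A, mu a * (vmap (F := L) (v a) ⬝ᵥ dvec δ (pt x)) =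
          (δ (h a.1) / h a.1) * (φ (H a) * lam a) + δ (φ (H a)) * lam a := by
        intro a
        have h2 := congrArg δ (hH a)
        rw [dvec_dot, dvec_vmap, zero_dotProduct, zero_add, Derivation.leibniz, smul_eq_mul,
          smul_eq_mul] at h2
        rw [← h2, hmu a]
        have h3 := hh a.1
        field_simp
      rw [Finset.sum_congr rfl (fun a _ => h1 a), Finset.sum_add_distrib, hδ δ, add_zero]
      exact hwt (fun i => δ (h i) / h i)
    have hws : ∀ j : Fin n, w j.succ = 0 := by
      intro j
      obtain ⟨δ, hδj⟩ := exists_derivation' hx (fun a => if a = j then (1 : L) else 0)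
      have h1 := hw2 δ
      have h2 : dvec δ (pt x) = Pi.single j.succ 1 := by
        funext i
        refine Fin.cases ?_ (fun i => ?_) i
        · rw [Pi.single_eq_of_ne (Fin.succ_ne_zero j).symm]
          simp [dvec, pt]
        · by_cases hij : i = j
          · subst hij
            rw [Pi.single_eq_same]
            simp [dvec, pt, hδj]
          · rw [Pi.single_eq_of_ne (fun h' => hij (Fin.succ_injective _ h'))]
            simp [dvec, pt, hδj, hij]
      rw [h2, dotProduct_single, mul_one] at h1
      exact h1
    have hw0 : w 0 = 0 := by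
      have h1 := hw1
      rw [dotProduct, Fin.sum_univ_succ] at h1
      simp only [hws, zero_mul, Finset.sum_const_zero, add_zero] at h1
      simpa [pt] using h1
    have hw : w = 0 := by
      funext i
      refine Fin.cases ?_ (fun i => ?_) i
      · exact hw0
      · exact hws i
    have hli : LinearIndependent L (fun a => vmap (F := L) (v a)) :=
      linearIndependent_algebraMap_comp_iff.2 hv
    have hmu0 : ∀ a, mu a = 0 := Fintype.linearIndependent_iff.1 hli mu hw
    apply hf0
    rw [hfe]
    apply Finset.sum_eq_zero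
    intro a _
    rw [hmu a, hmu0 a, zero_mul, mul_zero]
  obtain ⟨g, hg1, hg2, hg3⟩ := Submodule.exists_fun_fin_finrank_span_eq L (Set.range r)
  have hfr : Fintype.card A = Module.finrank L (Submodule.span L (Set.range r)) := by
    rw [hspan, finrank_top, Module.finrank_fintype_fun_eq_card]
  choose ρ' hρ' using hg1
  let e : A ≃ Fin (Module.finrank L (Submodule.span L (Set.range r))) :=
    Fintype.equivFinOfCardEq hfr
  let ρ : A → I ⊕ Fin m := fun i => ρ' (e i)
  refine ⟨ρ, ?_⟩
  intro hdet
  have hli : LinearIndependent L (fun i : A => r (ρ i)) := by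
    have h := hg3.comp e e.injective
    have he : (g ∘ e) = (fun i : A => r (ρ i)) := by
      funext i
      exact (hρ' _).symm
    rw [he] at h
    exact h
  have hdet2 : (Matrix.of fun i a => r (ρ i) a : Matrix A A L).det = 0 := by
    have h := congrArg φ hdet
    rw [map_zero, RingHom.map_det] at h
    rw [← h]
    congr 1
  have hunit : IsUnit (Matrix.of fun i a => r (ρ i) a : Matrix A A L) := by
    rw [← Matrix.linearIndependent_rows_iff_isUnit]
    exact hli
  rw [Matrix.isUnit_iff_isUnit_det, hdet2] at hunit
  exact not_isUnit_zero hunit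

end Pool.Agent.Helper70.HA
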