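import Mathlib
import Pool.Agent.Helper70.HA.NDefs
import Pool.Agent.Helper98.KA.NSide1

namespace Pool.Agent.Helper70.HA

open MvPolynomial

theorem totalDegree_rowOp2_le {k : Type*} [Field k] {m : ℕ} {I : Type*} [DecidableEq I]
    {N : I → ℕ} (o : I ⊕ Fin m) (a : Σ i : I, Fin (N i + 1)) (Q : MvPolynomial (Fin m) k)
    (h : rowOp2 o a Q ≠ 0) :
    (rowOp2 o a Q).totalDegree + (if o.isRight then 1 else 0) ≤ Q.totalDegree := by
  cases o with
  | inl i =>
    simp only [rowOp2] at h ⊢
    by_cases hi : a.1 = i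
    · rw [if_pos hi]
      simp
    · rw [if_neg hi] at h
      exact absurd rfl h
  | inr t =>
    simp only [rowOp2] at h ⊢
    simp only [Sum.isRight_inr, if_true]
    exact Helper98.KA.totalDegree_pderiv_lt t Q h

theorem totalDegree_det_lt2 {k : Type*} [Field k] {m : ℕ} {I : Type*} [Fintype I] [DecidableEq I]
    [Nonempty I] {N : I → ℕ} (hN : ∀ i, 1 ≤ N i)
    (ρ : (Σ i : I, Fin (N i + 1)) → I ⊕ Fin m)
    (H : (Σ i : I, Fin (N i + 1)) → MvPolynomial (Fin m) k)
    (hdet : (Matrix.of fun r a => rowOp2 (ρ r) a (H a) :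
      Matrix (Σ i : I, Fin (N i + 1)) (Σ i : I, Fin (N i + 1))
        (MvPolynomial (Fin m) k)).det ≠ 0) :
    (Matrix.of fun r a => rowOp2 (ρ r) a (H a) :
      Matrix (Σ i : I, Fin (N i + 1)) (Σ i : I, Fin (N i + 1))
        (MvPolynomial (Fin m) k)).det.totalDegree + 1 ≤ ∑ a, (H a).totalDegree := by
  classical
  have hex : ∃ r, (ρ r).isRight = true := by
    by_contra hall
    push Not at hall
    apply hdet
    have hleft : ∀ r, ∃ i, ρ r = Sum.inl i := by
      intro r
      have := hall r
      cases hr : ρ r with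
      | inl i => exact ⟨i, rfl⟩
      | inr t => rw [hr] at this; simp at this
    choose g hg using hleft
    have hcard : Fintype.card I < Fintype.card (Σ i : I, Fin (N i + 1)) := by
      rw [Fintype.card_sigma]
      simp only [Fintype.card_fin]
      have h1 : ∑ _i : I, 2 ≤ ∑ i : I, (N i + 1) :=
        Finset.sum_le_sum fun i _ => by have := hN i; omega
      rw [Finset.sum_const, Finset.card_univ, smul_eq_mul] at h1
      have h2 : 0 < Fintype.card I := Fintype.card_pos
      omega
    obtain ⟨a, b, hab, hgab⟩ := Fintype.exists_ne_map_eq_of_card_lt g hcard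
    apply Matrix.det_zero_of_row_eq hab
    funext c
    simp only [Matrix.of_apply]
    rw [hg a, hg b, hgab]
  obtain ⟨i0, hi0⟩ := hex
  have hle : ∀ σ : Equiv.Perm (Σ i : I, Fin (N i + 1)),
      (((Equiv.Perm.sign σ : ℤˣ) : ℤ) • ∏ i, (Matrix.of fun r a => rowOp2 (ρ r) a (H a) :
        Matrix (Σ i : I, Fin (N i + 1)) (Σ i : I, Fin (N i + 1))
          (MvPolynomial (Fin m) k)) (σ i) i).totalDegree ≤
        (∑ a, (H a).totalDegree) - 1 := by
    intro σ
    refine (totalDegree_smul_le _ _).trans ?_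
    by_cases h0 : ∏ i, (Matrix.of fun r a => rowOp2 (ρ r) a (H a) :
        Matrix (Σ i : I, Fin (N i + 1)) (Σ i : I, Fin (N i + 1))
          (MvPolynomial (Fin m) k)) (σ i) i = 0
    · rw [h0, totalDegree_zero]
      exact Nat.zero_le _
    · rw [← ne_eq, Finset.prod_ne_zero_iff] at h0
      have h1 : ∀ i, (rowOp2 (ρ (σ i)) i (H i)).totalDegree +
          (if (ρ (σ i)).isRight then 1 else 0) ≤ (H i).totalDegree := fun i =>
        totalDegree_rowOp2_le _ _ _ (h0 i (Finset.mem_univ i))
      have h2 : ∑ i, ((rowOp2 (ρ (σ i)) i (H i)).totalDegree +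
          (if (ρ (σ i)).isRight then 1 else 0)) ≤ ∑ i, (H i).totalDegree :=
        Finset.sum_le_sum fun i _ => h1 i
      rw [Finset.sum_add_distrib] at h2
      have h3 : 1 ≤ ∑ i, (if (ρ (σ i)).isRight then 1 else 0) := by
        have : (if (ρ (σ (σ.symm i0))).isRight then 1 else 0) ≤
            ∑ i, (if (ρ (σ i)).isRight then 1 else 0) :=
          Finset.single_le_sum (f := fun i => if (ρ (σ i)).isRight then 1 else 0)
            (fun _ _ => Nat.zero_le _) (Finset.mem_univ _)
        rw [Equiv.apply_symm_apply, if_pos hi0] at this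
        exact this
      have h4 := totalDegree_finsetProd (Finset.univ : Finset (Σ i : I, Fin (N i + 1)))
        (fun i => rowOp2 (ρ (σ i)) i (H i))
      have h5 : (∏ i, (Matrix.of fun r a => rowOp2 (ρ r) a (H a) :
        Matrix (Σ i : I, Fin (N i + 1)) (Σ i : I, Fin (N i + 1))
          (MvPolynomial (Fin m) k)) (σ i) i).totalDegree ≤
          ∑ i, (rowOp2 (ρ (σ i)) i (H i)).totalDegree := h4
      omega
  have hpos : 1 ≤ ∑ a, (H a).totalDegree := by
    -- some term of the determinant is nonzero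
    obtain ⟨σ, hσ⟩ : ∃ σ : Equiv.Perm (Σ i : I, Fin (N i + 1)),
        ∏ i, (Matrix.of fun r a => rowOp2 (ρ r) a (H a) :
        Matrix (Σ i : I, Fin (N i + 1)) (Σ i : I, Fin (N i + 1))
          (MvPolynomial (Fin m) k)) (σ i) i ≠ 0 := by
      by_contra hall
      push Not at hall
      apply hdet
      rw [Matrix.det_apply]
      apply Finset.sum_eq_zero
      intro σ _
      rw [hall σ, smul_zero]
    rw [Finset.prod_ne_zero_iff] at hσ
    have h1 := totalDegree_rowOp2_le (ρ (σ (σ.symm i0))) (σ.symm i0) (H (σ.symm i0))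
      (hσ (σ.symm i0) (Finset.mem_univ _))
    rw [Equiv.apply_symm_apply, if_pos hi0] at h1
    have h2 : (H (σ.symm i0)).totalDegree ≤ ∑ a, (H a).totalDegree :=
      Finset.single_le_sum (f := fun a => (H a).totalDegree)
        (fun _ _ => Nat.zero_le _) (Finset.mem_univ _)
    omega
  have hfin : (Matrix.of fun r a => rowOp2 (ρ r) a (H a) :
      Matrix (Σ i : I, Fin (N i + 1)) (Σ i : I, Fin (N i + 1))
        (MvPolynomial (Fin m) k)).det.totalDegree ≤
      (∑ a, (H a).totalDegree) - 1 := by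
    rw [Matrix.det_apply]
    refine (totalDegree_finsetSum _ _).trans ?_
    apply Finset.sup_le
    intro σ _
    exact hle σ
  omega

end Pool.Agent.Helper70.HA
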