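import Mathlib
import Pool.Agent.Helper70.HA.NDefs

namespace Pool.Agent.Helper70.HA

open MvPolynomial Module

theorem rowOp2_lin {k : Type*} [Field k] {m : ℕ} {I : Type*} [DecidableEq I]
    {N : I → ℕ} {J : Type*} (s : Finset J) (o : I ⊕ Fin m) (i : I) (a : Fin (N i + 1))
    (a' : J → Fin (N i + 1)) (t : J → k) (Q : J → MvPolynomial (Fin m) k) :
    rowOp2 o ⟨i, a⟩ (∑ j ∈ s, t j • Q j) = ∑ j ∈ s, rowOp2 o ⟨i, a' j⟩ (Q j) * C (t j) := by
  rcases o with i' | t'
  · show (if i = i' then (∑ j ∈ s, t j • Q j) else 0) = ∑ j ∈ s, (if i = i' then Q j else 0) * C (t j)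
    by_cases h : i = i'
    · rw [if_pos h]
      refine Finset.sum_congr rfl fun j _ => ?_
      rw [if_pos h, smul_eq_C_mul, mul_comm]
    · rw [if_neg h]
      refine (Finset.sum_eq_zero fun j _ => ?_).symm
      rw [if_neg h, zero_mul]
  · show pderiv t' (∑ j ∈ s, t j • Q j) = ∑ j ∈ s, pderiv t' (Q j) * C (t j)
    rw [map_sum]
    refine Finset.sum_congr rfl fun j _ => ?_
    rw [Derivation.map_smul, smul_eq_C_mul, mul_comm]

/-- Changing the bases of the blocks multiplies the minor by a nonzero constant. -/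
theorem det_basis2 {k : Type*} [Field k] {m : ℕ} {I : Type*} [Fintype I] [DecidableEq I]
    {N : I → ℕ} {V : I → Type*} [∀ i, AddCommGroup (V i)] [∀ i, Module k (V i)]
    (Φ : ∀ i, V i →ₗ[k] MvPolynomial (Fin m) k)
    (b b' : ∀ i, Basis (Fin (N i + 1)) k (V i)) (ρ : (Σ i : I, Fin (N i + 1)) → I ⊕ Fin m) :
    ∃ u : k, u ≠ 0 ∧ (Matrix.of fun r a => rowOp2 (ρ r) a (Φ a.1 (b' a.1 a.2)) :
      Matrix (Σ i : I, Fin (N i + 1)) (Σ i : I, Fin (N i + 1)) (MvPolynomial (Fin m) k)).det =
      C u * (Matrix.of fun r a => rowOp2 (ρ r) a (Φ a.1 (b a.1 a.2)) :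
      Matrix (Σ i : I, Fin (N i + 1)) (Σ i : I, Fin (N i + 1)) (MvPolynomial (Fin m) k)).det := by
  classical
  let B : Matrix (Σ i : I, Fin (N i + 1)) (Σ i : I, Fin (N i + 1)) k :=
    Matrix.blockDiagonal' fun i => (b i).toMatrix (b' i)
  let B' : Matrix (Σ i : I, Fin (N i + 1)) (Σ i : I, Fin (N i + 1)) k :=
    Matrix.blockDiagonal' fun i => (b' i).toMatrix (b i)
  have hBB : B * B' = 1 := by
    show (Matrix.blockDiagonal' fun i => (b i).toMatrix (b' i)) *
      (Matrix.blockDiagonal' fun i => (b' i).toMatrix (b i)) = 1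
    rw [← Matrix.blockDiagonal'_mul]
    have h1 : (fun i => (b i).toMatrix (b' i) * (b' i).toMatrix (b i)) =
        (1 : ∀ i, Matrix (Fin (N i + 1)) (Fin (N i + 1)) k) := by
      funext i
      exact (b i).toMatrix_mul_toMatrix_flip (b' i)
    rw [h1, Matrix.blockDiagonal'_one]
  refine ⟨B.det, ?_, ?_⟩
  · intro h0
    have h1 := congrArg Matrix.det hBB
    rw [Matrix.det_mul, h0, zero_mul, Matrix.det_one] at h1
    exact zero_ne_one h1
  · have h1 : (Matrix.of fun r a => rowOp2 (ρ r) a (Φ a.1 (b' a.1 a.2)) :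
      Matrix (Σ i : I, Fin (N i + 1)) (Σ i : I, Fin (N i + 1)) (MvPolynomial (Fin m) k)) =
      (Matrix.of fun r a => rowOp2 (ρ r) a (Φ a.1 (b a.1 a.2)) :
      Matrix (Σ i : I, Fin (N i + 1)) (Σ i : I, Fin (N i + 1)) (MvPolynomial (Fin m) k)) *
        B.map (C : k →+* MvPolynomial (Fin m) k) := by
      ext1 r a
      obtain ⟨i, a⟩ := a
      rw [Matrix.mul_apply, Fintype.sum_sigma, Finset.sum_eq_single i]
      · simp only [Matrix.of_apply, Matrix.map_apply, B, Matrix.blockDiagonal'_apply_eq,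
          Basis.toMatrix_apply]
        rw [← rowOp2_lin Finset.univ (ρ r) i a (fun j => j) (fun j => (b i).repr (b' i a) j)
          (fun j => Φ i (b i j))]
        congr 1
        conv_lhs => rw [← (b i).sum_repr (b' i a)]
        rw [map_sum]
        refine Finset.sum_congr rfl fun j _ => ?_
        rw [map_smul]
      · intro i' _ hi'
        refine Finset.sum_eq_zero fun j _ => ?_
        simp only [Matrix.map_apply, B]
        rw [Matrix.blockDiagonal'_apply_ne _ _ _ hi', map_zero, mul_zero]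
      · intro h
        exact absurd (Finset.mem_univ i) h
    rw [h1, Matrix.det_mul, mul_comm]
    congr 1
    have := RingHom.map_det (C : k →+* MvPolynomial (Fin m) k) B
    rw [this]
    rfl

end Pool.Agent.Helper70.HA
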