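import Mathlib
import Pool.Agent.Helper70.HA.N1
import Pool.Agent.Helper70.HA.N2
import Pool.Agent.Helper70.HA.N3

namespace Pool.Agent.Helper70.HA

open MvPolynomial Module Pool.Agent.Helper98.KA

private lemma totalDegree_pow_aux {k : Type*} [Field k] {m : ℕ} (G : MvPolynomial (Fin m) k)
    (hG : G ≠ 0) (t : ℕ) : (G ^ t).totalDegree = t * G.totalDegree := by
  induction t with
  | zero => simp
  | succ t ih =>
    rw [pow_succ, totalDegree_mul_of_isDomain (pow_ne_zero _ hG) hG, ih]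
    ring

private lemma totalDegree_prod_aux {k : Type*} [Field k] {m : ℕ} {J : Type*} (s : Finset J)
    (F : J → MvPolynomial (Fin m) k) (hF : ∀ j ∈ s, F j ≠ 0) :
    (∏ j ∈ s, F j).totalDegree = ∑ j ∈ s, (F j).totalDegree := by
  classical
  induction s using Finset.induction_on with
  | empty => simp
  | insert a s ha ih =>
    rw [Finset.prod_insert ha, Finset.sum_insert ha,
      totalDegree_mul_of_isDomain (hF a (Finset.mem_insert_self a s))
      (Finset.prod_ne_zero_iff.mpr fun j hj => hF j (Finset.mem_insert_of_mem hj)),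
      ih fun j hj => hF j (Finset.mem_insert_of_mem hj)]

private lemma wt_pos_aux {d : ℕ} (hd : 2 ≤ d) : 0 < (1 - 1 / (d : ℚ)) := by
  have h3 : (2 : ℚ) ≤ d := by exact_mod_cast hd
  have h4 : 1 / (d : ℚ) ≤ 1 / 2 := one_div_le_one_div_of_le (by norm_num) h3
  linarith

private lemma klt_aux {k : Type*} [Field k] {d : ℕ} (hd : 2 ≤ d) {N : ℕ}
    {V : Type*} [AddCommGroup V] [Module k V] {E : Type*} (c : E → V)
    (hklt : ∀ (S : Finset E), S.Nonempty →
      finrank k (Submodule.span k (c '' (S : Set E))) ≤ N →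
      (d - 1) * S.card < d * finrank k (Submodule.span k (c '' (S : Set E)))) :
    ∀ F : Finset E, F.Nonempty → finrank k (Submodule.span k (c '' (F : Set E))) ≤ N →
    ∑ e ∈ F, (1 - 1 / (d : ℚ)) < (finrank k (Submodule.span k (c '' (F : Set E))) : ℚ) := by
  intro F hF hr
  have h := hklt F hF hr
  rw [Finset.sum_const, nsmul_eq_mul]
  have hd0 : (0 : ℚ) < d := by
    have : 0 < d := by omega
    exact_mod_cast this
  have h1 : (((d - 1) * F.card : ℕ) : ℚ) <
      ((d * finrank k (Submodule.span k (c '' (F : Set E))) : ℕ) : ℚ) := by exact_mod_cast h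
  push_cast at h1
  rw [Nat.cast_sub (by omega)] at h1
  push_cast at h1
  have h2 : (F.card : ℚ) * (1 - 1 / (d : ℚ)) = ((d : ℚ) - 1) * F.card / d := by
    field_simp
  rw [h2, div_lt_iff₀ hd0]
  linarith

private lemma block_prime {k : Type*} [Field k] {m : ℕ}
    {d : ℕ} (hd : 2 ≤ d) {N : ℕ}
    {V : Type*} [AddCommGroup V] [Module k V] [FiniteDimensional k V] (hV : finrank k V = N + 1)
    {E : Type*} [Fintype E] (c : E → V) (hc0 : ∀ e, c e ≠ 0)
    (hklt : ∀ (S : Finset E), S.Nonempty →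
      finrank k (Submodule.span k (c '' (S : Set E))) ≤ N →
      (d - 1) * S.card < d * finrank k (Submodule.span k (c '' (S : Set E))))
    (Φ : V →ₗ[k] MvPolynomial (Fin m) k) (p : MvPolynomial (Fin m) k) (hp : Prime p)
    (hcop : ∃ v, ¬ p ∣ Φ v) (hinj : ∀ v, Φ v = 0 → v = 0) :
    ∃ b : Basis (Fin (N + 1)) k V,
      (∑ a, multiplicity p (Φ (b a)) = 0 ∧
        ∑ e, (1 - 1 / (d : ℚ)) * (multiplicity p (Φ (c e)) : ℚ) = 0) ∨
      ∑ e, (1 - 1 / (d : ℚ)) * (multiplicity p (Φ (c e)) : ℚ) <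
        ((∑ a, multiplicity p (Φ (b a)) : ℕ) : ℚ) := by
  classical
  let f : V → ℕ∞ := fun v => emultiplicity p (Φ v)
  have hf0 : f 0 = ⊤ := by
    simp only [f, map_zero]
    exact emultiplicity_zero p
  have hfin : ∀ a : MvPolynomial (Fin m) k, a ≠ 0 → FiniteMultiplicity p a := fun a ha =>
    FiniteMultiplicity.of_prime_left hp ha
  have hfne : ∀ v, v ≠ 0 → f v ≠ ⊤ := by
    intro v hv
    exact finiteMultiplicity_iff_emultiplicity_ne_top.mp (hfin _ fun h => hv (hinj _ h))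
  have hfadd : ∀ u v, min (f u) (f v) ≤ f (u + v) := by
    intro u v
    simp only [f, map_add]
    exact min_le_emultiplicity_add
  have hfsmul : ∀ (a : k) v, f v ≤ f (a • v) := by
    intro a v
    simp only [f, map_smul]
    apply emultiplicity_le_emultiplicity_of_dvd_right
    rw [smul_eq_C_mul]
    exact Dvd.intro_left _ rfl
  have hfz : ∃ v, f v = 0 := by
    obtain ⟨v, hv⟩ := hcop
    exact ⟨v, emultiplicity_eq_zero.mpr hv⟩
  obtain ⟨b, hb⟩ := orth_basis (N + 1) hV f hf0 hfne hfadd hfsmul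
  refine ⟨b, ?_⟩
  have hτ : ∀ a, f (b a) = multiplicity p (Φ (b a)) := fun a =>
    (hfin _ fun h => b.ne_zero a (hinj _ h)).emultiplicity_eq_multiplicity
  have hT : ∀ e, f (c e) = multiplicity p (Φ (c e)) := fun e =>
    (hfin _ fun h => hc0 e (hinj _ h)).emultiplicity_eq_multiplicity
  exact comb_ineq N c (fun _ : E => (1 - 1 / (d : ℚ))) (fun _ => wt_pos_aux hd)
    (klt_aux hd c hklt) f hf0 hfadd hfsmul hfz b hb _ hT _ hτ

private lemma block_deg {k : Type*} [Field k] {m : ℕ}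
    {d : ℕ} (hd : 2 ≤ d) {N : ℕ}
    {V : Type*} [AddCommGroup V] [Module k V] [FiniteDimensional k V] (hV : finrank k V = N + 1)
    {E : Type*} [Fintype E] (c : E → V) (hc0 : ∀ e, c e ≠ 0)
    (hklt : ∀ (S : Finset E), S.Nonempty →
      finrank k (Submodule.span k (c '' (S : Set E))) ≤ N →
      (d - 1) * S.card < d * finrank k (Submodule.span k (c '' (S : Set E))))
    (hcard : (d - 1) * Fintype.card E = d * (N + 1))
    (Φ : V →ₗ[k] MvPolynomial (Fin m) k) (b0 : Basis (Fin (N + 1)) k V) :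
    ∃ b : Basis (Fin (N + 1)) k V,
      ((∑ a, (Φ (b a)).totalDegree : ℕ) : ℚ) ≤
        ∑ e, (1 - 1 / (d : ℚ)) * ((Φ (c e)).totalDegree : ℚ) := by
  classical
  obtain ⟨a0, _, hmax0⟩ := Finset.exists_max_image (Finset.univ : Finset (Fin (N + 1)))
      (fun a => (Φ (b0 a)).totalDegree) Finset.univ_nonempty
  have hmax : ∀ a, (Φ (b0 a)).totalDegree ≤ (Φ (b0 a0)).totalDegree :=
    fun a => hmax0 a (Finset.mem_univ a)
  set D := (Φ (b0 a0)).totalDegree with hD
  have hdegle : ∀ v, (Φ v).totalDegree ≤ D := by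
    intro v
    rw [← b0.sum_repr v, map_sum]
    refine (totalDegree_finsetSum _ _).trans (Finset.sup_le fun a _ => ?_)
    rw [map_smul]
    exact (totalDegree_smul_le _ _).trans (hmax a)
  let f : V → ℕ∞ := fun v =>
    if v = 0 then ⊤ else ((D - (Φ v).totalDegree : ℕ) : ℕ∞)
  have hfv : ∀ v, v ≠ 0 → f v = ((D - (Φ v).totalDegree : ℕ) : ℕ∞) := fun v hv => if_neg hv
  have hf0 : f 0 = ⊤ := if_pos rfl
  have hfne : ∀ v, v ≠ 0 → f v ≠ ⊤ := by
    intro v hv
    rw [hfv v hv]
    exact ENat.natCast_ne_top _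
  have hfadd : ∀ u v, min (f u) (f v) ≤ f (u + v) := by
    intro u v
    by_cases hu : u = 0
    · rw [hu, zero_add]; exact min_le_right _ _
    by_cases hv : v = 0
    · rw [hv, add_zero]; exact min_le_left _ _
    by_cases huv : u + v = 0
    · rw [huv, hf0]; exact le_top
    rw [hfv u hu, hfv v hv, hfv _ huv, map_add]
    have h1 := totalDegree_add (Φ u) (Φ v)
    rcases le_total (Φ u).totalDegree (Φ v).totalDegree with h2 | h2
    · rw [max_eq_right h2] at h1
      refine (min_le_right _ _).trans ?_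
      exact_mod_cast Nat.sub_le_sub_left h1 D
    · rw [max_eq_left h2] at h1
      refine (min_le_left _ _).trans ?_
      exact_mod_cast Nat.sub_le_sub_left h1 D
  have hfsmul : ∀ (a : k) v, f v ≤ f (a • v) := by
    intro a v
    by_cases hav : a • v = 0
    · rw [hav, hf0]; exact le_top
    have hv : v ≠ 0 := by rintro rfl; exact hav (smul_zero a)
    rw [hfv _ hav, hfv v hv, map_smul]
    have h1 := totalDegree_smul_le a (Φ v)
    exact_mod_cast Nat.sub_le_sub_left h1 D
  have hfz : ∃ v, f v = 0 := by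
    refine ⟨b0 a0, ?_⟩
    rw [hfv _ (b0.ne_zero a0), ← hD, Nat.sub_self]
    rfl
  obtain ⟨b, hb⟩ := orth_basis (N + 1) hV f hf0 hfne hfadd hfsmul
  refine ⟨b, ?_⟩
  let τ : Fin (N + 1) → ℕ := fun a => D - (Φ (b a)).totalDegree
  have hτ : ∀ a, f (b a) = τ a := fun a => hfv _ (b.ne_zero a)
  let T : E → ℕ := fun e => D - (Φ (c e)).totalDegree
  have hT : ∀ e, f (c e) = T e := fun e => hfv _ (hc0 e)
  have hcomb := comb_ineq N c (fun _ : E => (1 - 1 / (d : ℚ))) (fun _ => wt_pos_aux hd)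
    (klt_aux hd c hklt) f hf0 hfadd hfsmul hfz b hb T hT τ hτ
  have hcomb' : ∑ e : E, (1 - 1 / (d : ℚ)) * (T e : ℚ) ≤ ((∑ a, τ a : ℕ) : ℚ) := by
    rcases hcomb with ⟨h1, h2⟩ | h
    · rw [h2]; positivity
    · exact h.le
  have h2 : ∑ e : E, (1 - 1 / (d : ℚ)) * ((Φ (c e)).totalDegree : ℚ) =
      (∑ e : E, (1 - 1 / (d : ℚ))) * D - ∑ e : E, (1 - 1 / (d : ℚ)) * (T e : ℚ) := by
    rw [Finset.sum_mul, ← Finset.sum_sub_distrib]
    apply Finset.sum_congr rfl
    intro e _
    have : ((T e : ℕ) : ℚ) = (D : ℚ) - ((Φ (c e)).totalDegree : ℚ) := by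
      simp only [T]
      rw [Nat.cast_sub (hdegle _)]
    rw [this]
    ring
  have h5 : ((∑ a, (Φ (b a)).totalDegree : ℕ) : ℚ) = ((N : ℚ) + 1) * D -
      ((∑ a, τ a : ℕ) : ℚ) := by
    push_cast
    have : ∀ a, ((τ a : ℕ) : ℚ) = (D : ℚ) - ((Φ (b a)).totalDegree : ℚ) := by
      intro a
      simp only [τ]
      rw [Nat.cast_sub (hdegle _)]
    simp only [this]
    rw [Finset.sum_sub_distrib, Finset.sum_const, Finset.card_univ, Fintype.card_fin]
    simp
  have h6 : ∑ e : E, (1 - 1 / (d : ℚ)) = (N : ℚ) + 1 := by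
    have hd0 : (0 : ℚ) < d := by
      have : 0 < d := by omega
      exact_mod_cast this
    have h1 : (((d - 1) * Fintype.card E : ℕ) : ℚ) = ((d * (N + 1) : ℕ) : ℚ) := by
      exact_mod_cast hcard
    push_cast at h1
    rw [Nat.cast_sub (by omega)] at h1
    push_cast at h1
    rw [Finset.sum_const, Finset.card_univ, nsmul_eq_mul]
    field_simp
    linarith
  rw [h5, h2, h6]
  linarith

/-- The core of the non-unirationality: a product of Kawamata log terminal log Calabi-Yau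
blocks. -/
theorem nside2 {k : Type*} [Field k] {m : ℕ} {I : Type*} [Fintype I] [DecidableEq I] [Nonempty I]
    {d : ℕ} (hd : 2 ≤ d) {N : I → ℕ} (hN : ∀ i, 1 ≤ N i)
    {V : I → Type*} [∀ i, AddCommGroup (V i)] [∀ i, Module k (V i)]
    [∀ i, FiniteDimensional k (V i)] (hV : ∀ i, finrank k (V i) = N i + 1)
    {E : I → Type*} [∀ i, Fintype (E i)] (c : ∀ i, E i → V i) (hc0 : ∀ i e, c i e ≠ 0)
    (hklt : ∀ i (S : Finset (E i)), S.Nonempty →
      finrank k (Submodule.span k (c i '' (S : Set (E i)))) ≤ N i →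
      (d - 1) * S.card < d * finrank k (Submodule.span k (c i '' (S : Set (E i)))))
    (hcard : ∀ i, (d - 1) * Fintype.card (E i) = d * (N i + 1))
    (Φ : ∀ i, V i →ₗ[k] MvPolynomial (Fin m) k) (hcop : ∀ i p, Prime p → ∃ v, ¬ p ∣ Φ i v)
    (hinj : ∀ i v, Φ i v = 0 → v = 0) (b : ∀ i, Basis (Fin (N i + 1)) k (V i))
    (ρ : (Σ i : I, Fin (N i + 1)) → I ⊕ Fin m)
    (hdet : (Matrix.of fun r a => rowOp2 (ρ r) a (Φ a.1 (b a.1 a.2)) :
      Matrix (Σ i : I, Fin (N i + 1)) (Σ i : I, Fin (N i + 1)) (MvPolynomial (Fin m) k)).det ≠ 0)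
    (G : MvPolynomial (Fin m) k) (hG : G ^ d = ∏ i, ∏ e, Φ i (c i e)) : False := by
  classical
  set Dt := (Matrix.of fun r a => rowOp2 (ρ r) a (Φ a.1 (b a.1 a.2)) :
      Matrix (Σ i : I, Fin (N i + 1)) (Σ i : I, Fin (N i + 1)) (MvPolynomial (Fin m) k)).det
    with hDt
  have hlc : ∀ i e, Φ i (c i e) ≠ 0 := fun i e h => hc0 i e (hinj i _ h)
  have hG0 : G ≠ 0 := by
    intro h0
    rw [h0, zero_pow (by omega)] at hG
    obtain ⟨i, _, hi⟩ := Finset.prod_eq_zero_iff.mp hG.symm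
    obtain ⟨e, _, he⟩ := Finset.prod_eq_zero_iff.mp hi
    exact hlc i e he
  have hd0 : (0 : ℚ) < d := by
    have : 0 < d := by omega
    exact_mod_cast this
  -- weighted sums
  have hsum : ∀ (T : ∀ i, E i → ℕ) (g : ℕ), d * g = ∑ i, ∑ e, T i e →
      ∑ i, ∑ e, (1 - 1 / (d : ℚ)) * (T i e : ℚ) = (((d - 1) * g : ℕ) : ℚ) := by
    intro T g hTg
    have h1 : (∑ i, ∑ e, (T i e : ℚ)) = (d : ℚ) * g := by exact_mod_cast hTg.symm
    simp only [← Finset.mul_sum]
    rw [h1]
    push_cast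
    rw [Nat.cast_sub (by omega)]
    push_cast
    field_simp
  -- divisibility
  have hdvd : G ^ (d - 1) ∣ Dt := by
    rw [UniqueFactorizationMonoid.dvd_iff_emultiplicity_le (pow_ne_zero _ hG0)]
    intro p hp
    have hfin : ∀ a : MvPolynomial (Fin m) k, a ≠ 0 → FiniteMultiplicity p a := fun a ha =>
      FiniteMultiplicity.of_prime_left hp ha
    have hbl := fun i => block_prime hd (hV i) (c i) (hc0 i) (hklt i) (Φ i) p hp (hcop i p hp)
      (hinj i)
    choose b' hb' using hbl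
    set g := multiplicity p G with hg
    have hgG : emultiplicity p G = g := (hfin _ hG0).emultiplicity_eq_multiplicity
    have hgT : d * g = ∑ i, ∑ e, multiplicity p (Φ i (c i e)) := by
      have h1 := congrArg (emultiplicity p) hG
      rw [emultiplicity_pow hp, Finset.emultiplicity_prod hp, hgG] at h1
      have h2 : ∀ i, emultiplicity p (∏ e, Φ i (c i e)) =
          ((∑ e, multiplicity p (Φ i (c i e)) : ℕ) : ℕ∞) := by
        intro i
        rw [Finset.emultiplicity_prod hp]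
        push_cast
        exact Finset.sum_congr rfl fun e _ => (hfin _ (hlc i e)).emultiplicity_eq_multiplicity
      simp only [h2] at h1
      exact_mod_cast h1
    have hS := hsum (fun i e => multiplicity p (Φ i (c i e))) g hgT
    have hPm : emultiplicity p (G ^ (d - 1)) = (((d - 1) * g : ℕ) : ℕ∞) := by
      rw [emultiplicity_pow hp, hgG]
      push_cast
      rfl
    rw [hPm]
    set s : I → ℕ := fun i => ∑ a, multiplicity p (Φ i (b' i a)) with hs
    have hle : ∀ i, ∑ e, (1 - 1 / (d : ℚ)) * (multiplicity p (Φ i (c i e)) : ℚ) ≤ (s i : ℚ) := by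
      intro i
      rcases hb' i with ⟨h1, h2⟩ | h
      · rw [h2]; positivity
      · exact h.le
    rcases Nat.eq_zero_or_pos (∑ i, s i) with h0 | hpos
    · have h1 : (((d - 1) * g : ℕ) : ℚ) ≤ ((∑ i, s i : ℕ) : ℚ) := by
        rw [← hS]
        push_cast
        exact Finset.sum_le_sum fun i _ => hle i
      have h2 : (d - 1) * g ≤ ∑ i, s i := by exact_mod_cast h1
      have h3 : (d - 1) * g = 0 := by omega
      rw [h3]
      exact zero_le
    · have hlt : (((d - 1) * g : ℕ) : ℚ) < ((∑ i, s i : ℕ) : ℚ) := by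
        rw [← hS]
        push_cast
        obtain ⟨i0, _, hi0⟩ : ∃ i ∈ (Finset.univ : Finset I), 0 < s i :=
          Finset.sum_pos_iff.mp hpos
        refine Finset.sum_lt_sum (fun i _ => hle i) ⟨i0, Finset.mem_univ _, ?_⟩
        rcases hb' i0 with ⟨h1, _⟩ | h
        · exact absurd h1 hi0.ne'
        · exact h
      have hlt' : (d - 1) * g < ∑ i, s i := by exact_mod_cast hlt
      obtain ⟨S, hSS⟩ : ∃ S, ∑ i, s i = S + 1 := ⟨∑ i, s i - 1, by omega⟩
      have hw' : ∀ a : (Σ i : I, Fin (N i + 1)), ∃ w, Φ a.1 (b' a.1 a.2) =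
          p ^ (multiplicity p (Φ a.1 (b' a.1 a.2))) * w := fun a => pow_multiplicity_dvd p _
      choose w hw' using hw'
      have h1 := pow_dvd_minor2 p hp.ne_zero ρ (fun a => Φ a.1 (b' a.1 a.2)) w
        (fun a => multiplicity p (Φ a.1 (b' a.1 a.2))) hw' S (by
          rw [Fintype.sum_sigma]
          exact hSS)
      obtain ⟨u, hu, hdu⟩ := det_basis2 Φ b b' ρ
      rw [hdu] at h1
      have h3 : p ^ S ∣ Dt := by
        have hunit : IsUnit (C u : MvPolynomial (Fin m) k) := by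
          apply IsUnit.map
          exact isUnit_iff_ne_zero.mpr hu
        exact (hunit.dvd_mul_left).mp h1
      refine le_trans ?_ (le_emultiplicity_of_pow_dvd h3)
      exact_mod_cast (by omega : (d - 1) * g ≤ S)
  -- degrees
  have hbl := fun i => block_deg hd (hV i) (c i) (hc0 i) (hklt i) (hcard i) (Φ i) (b i)
  choose b' hb' using hbl
  obtain ⟨u, hu, hdu⟩ := det_basis2 Φ b b' ρ
  have hCu : (C u : MvPolynomial (Fin m) k) ≠ 0 := by rw [Ne, C_eq_zero]; exact hu
  have hdetb : (Matrix.of fun r a => rowOp2 (ρ r) a (Φ a.1 (b' a.1 a.2)) :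
      Matrix (Σ i : I, Fin (N i + 1)) (Σ i : I, Fin (N i + 1))
        (MvPolynomial (Fin m) k)).det ≠ 0 := by
    rw [hdu]
    exact mul_ne_zero hCu hdet
  have h3 := totalDegree_det_lt2 hN ρ (fun a => Φ a.1 (b' a.1 a.2)) hdetb
  rw [hdu, totalDegree_mul_of_isDomain hCu hdet, totalDegree_C, zero_add,
    Fintype.sum_sigma] at h3
  have h4 : (G ^ (d - 1)).totalDegree ≤ Dt.totalDegree :=
    totalDegree_le_of_dvd_of_isDomain hdvd hdet
  rw [totalDegree_pow_aux G hG0] at h4
  have h5 : d * G.totalDegree = ∑ i, ∑ e, (Φ i (c i e)).totalDegree := by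
    rw [← totalDegree_pow_aux G hG0, hG, totalDegree_prod_aux _ _ (fun i _ =>
      Finset.prod_ne_zero_iff.mpr fun e _ => hlc i e)]
    exact Finset.sum_congr rfl fun i _ => totalDegree_prod_aux _ _ fun e _ => hlc i e
  have h6 := hsum (fun i e => (Φ i (c i e)).totalDegree) G.totalDegree h5
  have h7 : ((∑ i, ∑ a, (Φ i (b' i a)).totalDegree : ℕ) : ℚ) ≤
      (((d - 1) * G.totalDegree : ℕ) : ℚ) := by
    rw [← h6]
    push_cast
    refine Finset.sum_le_sum fun i _ => ?_
    have := hb' i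
    push_cast at this
    exact this
  have h8 : ∑ i, ∑ a, (Φ i (b' i a)).totalDegree ≤ (d - 1) * G.totalDegree := by
    exact_mod_cast h7
  have h9 : ∀ x y z : ℕ, x + 1 ≤ y → y ≤ z → z ≤ x → False := by
    intro x y z h1 h2 h3
    omega
  exact h9 _ _ _ h3 h8 h4

end Pool.Agent.Helper70.HA
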