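import Mathlib
import Pool.Agent.Helper70.HA.N4
import Pool.Agent.Helper70.HA.N5
import Pool.Agent.Helper70.HA.C3

namespace Pool.Agent.Helper70.HA

open MvPolynomial Module Matrix Pool.Agent.Helper98.KA

namespace N6x

/-- evaluation of a linear form at the generic point -/
noncomputable def ev {k L : Type*} [Field k] [Field L] [Algebra k L] {n : ℕ} (x : Fin n → L) :
    (Fin (n + 1) → k) →ₗ[k] L where
  toFun v := vmap (F := L) v ⬝ᵥ pt x
  map_add' u v := by
    simp only [dot_pt, Pi.add_apply, map_add, add_mul, Finset.sum_add_distrib]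
    ring
  map_smul' a v := by
    rw [RingHom.id_apply, Algebra.smul_def a (vmap (F := L) v ⬝ᵥ pt x)]
    simp only [dot_pt, Pi.smul_apply, smul_eq_mul, map_mul, mul_add, Finset.mul_sum, mul_assoc]

theorem ev_apply {k L : Type*} [Field k] [Field L] [Algebra k L] {n : ℕ} (x : Fin n → L)
    (v : Fin (n + 1) → k) : ev x v = algebraMap k L (v 0) +
      ∑ i : Fin n, algebraMap k L (v i.succ) * x i := dot_pt x v

theorem ev_eq_zero {k L : Type*} [Field k] [Field L] [Algebra k L] {n : ℕ} {x : Fin n → L}
    (hx : AlgebraicIndependent k x) (v : Fin (n + 1) → k) (h : ev x v = 0) : v = 0 := by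
  rw [ev_apply] at h
  exact linform_ne_zero hx v h

/-- the data of one block -/
theorem exists_block {k L : Type*} [Field k] [Field L] [Algebra k L]
    {m n : ℕ} [Algebra (MvPolynomial (Fin m) k) L]
    [IsScalarTower k (MvPolynomial (Fin m) k) L] [IsFractionRing (MvPolynomial (Fin m) k) L]
    (x : Fin n → L) (hx : AlgebraicIndependent k x) (V : Submodule k (Fin (n + 1) → k)) (N : ℕ)
    (b : Basis (Fin (N + 1)) k V) :
    ∃ (Φ : V →ₗ[k] MvPolynomial (Fin m) k) (h : L), h ≠ 0 ∧
      (∀ v : V, algebraMap (MvPolynomial (Fin m) k) L (Φ v) * h = ev x (v : Fin (n + 1) → k)) ∧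
      (∀ p, Prime p → ∃ v, ¬ p ∣ Φ v) ∧ ∀ v, Φ v = 0 → v = 0 := by
  classical
  set φ := algebraMap (MvPolynomial (Fin m) k) L with hφ
  have hφinj : Function.Injective φ := IsFractionRing.injective _ _
  obtain ⟨F, hF0, hF, hcop⟩ := exists_coprime_rep (k := k) (m := m)
    (fun j : Fin N => ev x (b j.succ : Fin (n + 1) → k) / ev x (b 0 : Fin (n + 1) → k))
  have hφ0 : φ (F 0) ≠ 0 := by
    rw [Ne, map_eq_zero_iff φ hφinj]
    exact hF0
  have hb0 : ev x (b 0 : Fin (n + 1) → k) ≠ 0 := by
    intro h
    have h1 := ev_eq_zero hx _ h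
    exact b.ne_zero 0 (Subtype.ext h1)
  have hΦ : ∀ v : V, φ (b.constr k F v) * (ev x (b 0 : Fin (n + 1) → k) / φ (F 0)) =
      ev x (v : Fin (n + 1) → k) := by
    have key : (LinearMap.mulRight k (ev x (b 0 : Fin (n + 1) → k) / φ (F 0))).comp
        ((IsScalarTower.toAlgHom k (MvPolynomial (Fin m) k) L).toLinearMap.comp (b.constr k F)) =
        (ev x).comp V.subtype := by
      apply b.ext
      intro j
      change φ (b.constr k F (b j)) * (ev x (b 0 : Fin (n + 1) → k) / φ (F 0)) =
        ev x (b j : Fin (n + 1) → k)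
      rw [Basis.constr_basis]
      rcases Fin.eq_zero_or_eq_succ j with h | ⟨j, rfl⟩
      · rw [h]
        field_simp
      · rw [hφ, hF j, ← hφ]
        field_simp
    intro v
    exact LinearMap.congr_fun key v
  refine ⟨b.constr k F, ev x (b 0 : Fin (n + 1) → k) / φ (F 0), div_ne_zero hb0 hφ0, hΦ, ?_, ?_⟩
  · intro p hp
    obtain ⟨a, ha⟩ := hcop p hp
    refine ⟨b a, ?_⟩
    rw [Basis.constr_basis]
    exact ha
  · intro v hv
    have h1 := hΦ v
    rw [hv, map_zero, zero_mul] at h1
    exact Subtype.ext (ev_eq_zero hx _ h1.symm)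

theorem prod_parts {E M : Type*} [Fintype E] [DecidableEq E] [CommMonoid M]
    (P : Finpartition (Finset.univ : Finset E)) (f : E → M) :
    ∏ e, f e = ∏ p : {p // p ∈ P.parts}, ∏ e : {e // e ∈ p.1}, f e.1 := by
  have h1 : ∏ e, f e = ∏ p ∈ P.parts, ∏ e ∈ p, f e := by
    conv_lhs => rw [← P.biUnion_parts]
    rw [Finset.prod_biUnion]
    · rfl
    · intro p hp q hq hne
      exact P.disjoint hp hq hne
  rw [h1, ← Finset.prod_coe_sort]
  refine Finset.prod_congr rfl fun p _ => ?_
  rw [← Finset.prod_coe_sort]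

end N6x

open N6x

/-- The covers with a splitting log Calabi-Yau branch configuration are not unirational. -/
theorem not_unirational_of_split {k L : Type*} [Field k] [CharZero k] [Field L] [Algebra k L]
    {m n : ℕ} [Algebra (MvPolynomial (Fin m) k) L]
    [IsScalarTower k (MvPolynomial (Fin m) k) L] [IsFractionRing (MvPolynomial (Fin m) k) L]
    {E : Type*} [Fintype E] [DecidableEq E] [Nonempty E] {d : ℕ} (hd : 2 ≤ d)
    (l : E → Fin (n + 1) → k) (hl : ∀ e e', e ≠ e' → LinearIndependent k ![l e, l e'])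
    (hl0 : ∀ e, l e ≠ 0) (hsplit : SplitLC d (rk l) Finset.univ)
    (x : Fin n → L) (hx : AlgebraicIndependent k x) (y : L)
    (hy : y ^ d = ∏ e, (algebraMap k L (l e 0) +
      ∑ i : Fin n, algebraMap k L (l e i.succ) * x i)) : False := by
  classical
  set φ := algebraMap (MvPolynomial (Fin m) k) L with hφ
  have hφinj : Function.Injective φ := IsFractionRing.injective _ _
  have hrk := isRk_rk l hl0
  obtain ⟨P, hPr, hP⟩ := exists_klt_partition hrk hd Finset.univ hsplit
  -- the rank of a part is at least two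
  have hrk2 : ∀ p ∈ P.parts, 2 ≤ rk l p := by
    intro p hp
    have h1 := (hP p hp).1
    have hne : p.Nonempty := P.nonempty_of_mem_parts hp
    have h2 : 1 ≤ rk l p := by
      obtain ⟨e, he⟩ := hne
      have h3 := hrk.mono (Finset.singleton_subset_iff.mpr he)
      rw [hrk.single] at h3
      exact h3
    have h4 : 1 < p.card := by
      by_contra hc
      have h5 : p.card = 1 := by
        have := hne.card_pos
        omega
      rw [h5, mul_one] at h1
      have h6 : d * 1 ≤ d * rk l p := Nat.mul_le_mul_left d h2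
      omega
    obtain ⟨e, he, e', he', hee⟩ := Finset.one_lt_card.mp h4
    have h7 : rk l {e, e'} = 2 := by
      unfold rk
      have h8 : (l '' (({e, e'} : Finset E) : Set E)) = Set.range ![l e, l e'] := by
        ext u
        simp [eq_comm]
        exact or_comm
      rw [h8, finrank_span_eq_card (hl e e' hee)]
      simp
    have h9 : ({e, e'} : Finset E) ⊆ p := by
      intro a ha
      rw [Finset.mem_insert, Finset.mem_singleton] at ha
      rcases ha with rfl | rfl
      · exact he
      · exact he'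
    have := hrk.mono h9
    omega
  let I := {p // p ∈ P.parts}
  have hI : Nonempty I := by
    obtain ⟨e⟩ := (inferInstance : Nonempty E)
    have he : e ∈ P.parts.biUnion id := by
      rw [P.biUnion_parts]
      exact Finset.mem_univ e
    obtain ⟨p, hp, _⟩ := Finset.mem_biUnion.mp he
    exact ⟨⟨p, hp⟩⟩
  let N : I → ℕ := fun p => rk l p.1 - 1
  have hN1 : ∀ p : I, N p + 1 = rk l p.1 := by
    intro p
    have := hrk2 p.1 p.2
    simp only [N]
    omega
  have hN : ∀ p : I, 1 ≤ N p := by
    intro p
    have := hrk2 p.1 p.2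
    simp only [N]
    omega
  let V : I → Submodule k (Fin (n + 1) → k) := fun p => Submodule.span k (l '' (p.1 : Set E))
  have hV : ∀ p : I, finrank k (V p) = N p + 1 := fun p => (hN1 p).symm
  let b : ∀ p : I, Basis (Fin (N p + 1)) k (V p) := fun p => finBasisOfFinrankEq k (V p) (hV p)
  choose Φ h hh0 hΦ hcop hinj using fun p : I => exists_block (m := m) x hx (V p) (N p) (b p)
  let c : ∀ p : I, {e // e ∈ p.1} → V p := fun p e =>
    ⟨l e.1, Submodule.subset_span ⟨e.1, e.2, rfl⟩⟩
  have hc0 : ∀ p e, c p e ≠ 0 := by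
    intro p e he
    exact hl0 e.1 (congrArg Subtype.val he)
  -- ranks of the subsets of a part
  have hfin : ∀ (p : I) (S : Finset {e // e ∈ p.1}),
      finrank k (Submodule.span k (c p '' (S : Set {e // e ∈ p.1}))) =
        rk l (S.map (Function.Embedding.subtype _)) := by
    intro p S
    have h1 : (V p).subtype '' (c p '' (S : Set {e // e ∈ p.1})) =
        l '' ((S.map (Function.Embedding.subtype _) : Finset E) : Set E) := by
      ext u
      simp only [Set.mem_image, Finset.mem_coe, Finset.mem_map]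
      constructor
      · rintro ⟨_, ⟨e, he, rfl⟩, rfl⟩
        exact ⟨e.1, ⟨e, he, rfl⟩, rfl⟩
      · rintro ⟨_, ⟨e, he, rfl⟩, rfl⟩
        exact ⟨c p e, ⟨e, he, rfl⟩, rfl⟩
    rw [← Submodule.finrank_map_subtype_eq, Submodule.map_span, h1]
    rfl
  have hklt : ∀ (p : I) (S : Finset {e // e ∈ p.1}), S.Nonempty →
      finrank k (Submodule.span k (c p '' (S : Set {e // e ∈ p.1}))) ≤ N p →
      (d - 1) * S.card <
        d * finrank k (Submodule.span k (c p '' (S : Set {e // e ∈ p.1}))) := by
    intro p S hS hle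
    rw [hfin] at hle ⊢
    have h1 := (hP p.1 p.2).2 (S.map (Function.Embedding.subtype _)) ?_ ?_ ?_
    · rw [Finset.card_map] at h1
      exact h1
    · intro e he
      rw [Finset.mem_map] at he
      obtain ⟨e', _, rfl⟩ := he
      exact e'.2
    · exact hS.map
    · intro h2
      rw [h2] at hle
      have := hN1 p
      omega
  have hcard : ∀ p : I, (d - 1) * Fintype.card {e // e ∈ p.1} = d * (N p + 1) := by
    intro p
    rw [Fintype.card_coe, hN1]
    exact (hP p.1 p.2).1
  -- linear independence of the bases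
  let v : (Σ p : I, Fin (N p + 1)) → Fin (n + 1) → k := fun a => (b a.1 a.2 : Fin (n + 1) → k)
  have hVsup : ∀ p : I, Submodule.span k (Set.range fun j => (b p j : Fin (n + 1) → k)) = V p := by
    intro p
    have h1 : Submodule.map (V p).subtype (Submodule.span k (Set.range (b p))) = V p := by
      rw [(b p).span_eq, Submodule.map_top, Submodule.range_subtype]
    rw [Submodule.map_span, ← Set.range_comp] at h1
    exact h1
  have hspan : Submodule.span k (Set.range v) =
      Submodule.span k (l '' ((Finset.univ : Finset E) : Set E)) := by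
    apply le_antisymm
    · rw [Submodule.span_le]
      rintro _ ⟨⟨p, j⟩, rfl⟩
      have h1 : (b p j : Fin (n + 1) → k) ∈ V p := (b p j).2
      refine Submodule.span_mono ?_ h1
      exact Set.image_mono (by simp)
    · rw [Submodule.span_le]
      rintro _ ⟨e, _, rfl⟩
      have he : e ∈ P.parts.biUnion id := by
        rw [P.biUnion_parts]
        exact Finset.mem_univ e
      obtain ⟨p, hp, hep⟩ := Finset.mem_biUnion.mp he
      have h1 : l e ∈ V ⟨p, hp⟩ := Submodule.subset_span ⟨e, hep, rfl⟩
      rw [← hVsup ⟨p, hp⟩] at h1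
      refine Submodule.span_mono ?_ h1
      rintro _ ⟨j, rfl⟩
      exact ⟨⟨⟨p, hp⟩, j⟩, rfl⟩
  have hv : LinearIndependent k v := by
    rw [linearIndependent_iff_card_eq_finrank_span, Set.finrank, hspan]
    have h1 : finrank k (Submodule.span k (l '' ((Finset.univ : Finset E) : Set E))) =
        rk l Finset.univ := rfl
    rw [h1, hPr, Fintype.card_sigma, ← Finset.sum_coe_sort P.parts (fun p => rk l p)]
    refine Finset.sum_congr rfl fun p _ => ?_
    rw [Fintype.card_fin]
    exact hN1 p
  obtain ⟨ρ, hρ⟩ := exists_minor2 (m := m) hφinj x hx v hv h hh0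
    (fun a => Φ a.1 (b a.1 a.2)) (fun a => hΦ a.1 (b a.1 a.2))
  -- the root
  have hdvd : ∀ p : I, ∃ t : ℕ, p.1.card = d * t := by
    intro p
    have h1 := (hP p.1 p.2).1
    have h2 : d ∣ (d - 1) * p.1.card := ⟨_, h1⟩
    have h3 : Nat.Coprime d (d - 1) := by
      have h4 : Nat.Coprime (d - 1 + 1) (d - 1) := by simp
      rwa [Nat.sub_add_cancel (by omega)] at h4
    exact h3.dvd_of_dvd_mul_left h2
  choose t ht using hdvd
  have hG : ∃ G : MvPolynomial (Fin m) k, G ^ d = ∏ p : I, ∏ e, Φ p (c p e) := by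
    have hpow : (y / ∏ p : I, h p ^ t p) ^ d = φ (∏ p : I, ∏ e, Φ p (c p e)) := by
      rw [div_pow, hy, prod_parts P, ← Finset.prod_pow, ← Finset.prod_div_distrib, map_prod]
      refine Finset.prod_congr rfl fun p _ => ?_
      rw [map_prod, ← pow_mul, mul_comm (t p) d, ← ht p]
      have h1 : h p ^ p.1.card = ∏ e : {e // e ∈ p.1}, h p := by
        rw [Finset.prod_const, Finset.card_univ, Fintype.card_coe]
      rw [h1, ← Finset.prod_div_distrib]
      refine Finset.prod_congr rfl fun e _ => ?_
      rw [div_eq_iff (hh0 p), ← ev_apply]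
      exact (hΦ p (c p e)).symm
    have hint : IsIntegral (MvPolynomial (Fin m) k) ((y / ∏ p : I, h p ^ t p) ^ d) := by
      rw [hpow]
      exact isIntegral_algebraMap
    obtain ⟨G, hG⟩ := IsIntegrallyClosed.exists_algebraMap_eq_of_isIntegral_pow
      (by omega) hint
    refine ⟨G, ?_⟩
    apply hφinj
    rw [map_pow, hG, hpow]
  obtain ⟨G, hG⟩ := hG
  exact nside2 hd hN hV c hc0 hklt hcard Φ hcop hinj b ρ hρ G hG

end Pool.Agent.Helper70.HA
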