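import Mathlib
import Pool.Agent.Helper70.HA.Defs

namespace Pool.Agent.Helper70.HA

open Module Matrix Pool.Agent.Helper98.KA

/-- A field generated by the coordinates of the generic point and by a root is rational if the
equation can be solved for a ratio. -/
theorem rational_of_blocks {k F : Type*} [Field k] [CharZero k] [Field F] [Algebra k F] {n : ℕ}
    {β : Type*} [Fintype β] [DecidableEq β] {M : β → ℕ} (x : Fin n → F)
    (hx : IsTranscendenceBasis k x) (b : β → Fin (n + 1) → k)
    (c : (i : β) → Fin (M i) → Fin (n + 1) → k)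
    (hb : ∀ i, vmap (F := F) (b i) ⬝ᵥ pt x ≠ 0)
    (hsp : ∀ G : Finset β, G.Nonempty → ∑ i ∈ G, M i < finrank F (Ssp (F := F) b c G))
    (p0 : Σ i, Fin (M i)) (y z g h : F) {μ d : ℕ} (hμ : μ.Coprime d) (hd : 1 ≤ d)
    (hR0 : ratio x b c p0.1 p0.2 ≠ 0) (hg0 : g ≠ 0)
    (hg : g ∈ IntermediateField.adjoin k
      {a | ∃ p : Σ i, Fin (M i), p ≠ p0 ∧ a = ratio x b c p.1 p.2})
    (hz : z ^ d = ratio x b c p0.1 p0.2 ^ μ * g)
    (hh : h ∈ IntermediateField.adjoin k (Set.range x)) (hy : y = z * h)
    (hadj : IntermediateField.adjoin k (Set.range x ∪ {y}) = ⊤) :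
    ∃ m : ℕ, Nonempty (F ≃ₐ[k] FractionRing (MvPolynomial (Fin m) k)) := by
  classical
  have hder : ∀ v : Fin n → F, ∃ δ : Derivation k F F, ∀ i, δ (x i) = v i :=
    fun v => exists_derivation hx v
  have hfr := (finrank_Usp hder hb hsp Finset.univ).1
  -- linear independence of the cuts
  let C : (Σ i : β, Fin (M i)) → Fin (n + 1) → F := fun p => cut x b c p.1 p.2
  have hcard : Fintype.card (Σ i : β, Fin (M i)) = ∑ i : β, M i := by
    simp [Fintype.card_sigma]
  have hCli : LinearIndependent F C := by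
    have hU : Usp x b c Finset.univ = Submodule.span F (Set.range C) := by
      rw [Usp]
      congr 1
      ext u
      constructor
      · rintro ⟨i, _, e, rfl⟩
        exact ⟨⟨i, e⟩, rfl⟩
      · rintro ⟨⟨i, e⟩, rfl⟩
        exact ⟨i, Finset.mem_univ _, e, rfl⟩
    rw [linearIndependent_iff_card_eq_finrank_span, hcard, ← hfr, hU]
    rfl
  let R : (Σ i : β, Fin (M i)) → F := fun p => ratio x b c p.1 p.2
  set E : IntermediateField k F := IntermediateField.adjoin k (Set.range R) with hEdef
  have hE : ∀ p a, C p a ∈ E := by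
    intro p a
    change algebraMap k F (c p.1 p.2 a) - R p * algebraMap k F (b p.1 a) ∈ E
    apply sub_mem (E.algebraMap_mem _)
    apply mul_mem _ (E.algebraMap_mem _)
    exact IntermediateField.subset_adjoin k _ ⟨p, rfl⟩
  obtain ⟨s, hs1, hs2⟩ := solve E x C hE hCli (fun p => cut_dot hb p.1 p.2)
  -- the new generator
  have hR0' : R p0 ≠ 0 := hR0
  have hz' : z ^ d = R p0 ^ μ * g := hz
  have hz0 : z ≠ 0 := by
    intro h0
    rw [h0, zero_pow (by omega)] at hz'
    exact mul_ne_zero (pow_ne_zero _ hR0') hg0 hz'.symm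
  obtain ⟨u, v, huv⟩ : ∃ u v : ℤ, u * (μ : ℤ) + v * (d : ℤ) = 1 :=
    Nat.isCoprime_iff_coprime.mpr hμ
  set t : F := z ^ u * R p0 ^ v with ht
  have hzd : z ^ (d : ℤ) = R p0 ^ (μ : ℤ) * g := by
    rw [zpow_natCast, zpow_natCast]; exact hz'
  have hR : R p0 = t ^ (d : ℤ) * g ^ (-u) := by
    have h1 : t ^ (d : ℤ) = R p0 * g ^ u := by
      rw [ht, mul_zpow, ← _root_.zpow_mul, ← _root_.zpow_mul, mul_comm u (d : ℤ), _root_.zpow_mul, hzd, mul_zpow,
        ← _root_.zpow_mul]
      calc R p0 ^ ((μ : ℤ) * u) * g ^ u * R p0 ^ (v * (d : ℤ))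
          = (R p0 ^ ((μ : ℤ) * u) * R p0 ^ (v * (d : ℤ))) * g ^ u := by ring
        _ = R p0 * g ^ u := by
          rw [← zpow_add₀ hR0', mul_comm (μ : ℤ) u, huv, zpow_one]
    rw [h1, mul_assoc, ← zpow_add₀ hg0, add_neg_cancel, zpow_zero, mul_one]
  have hzt : z = t ^ (μ : ℤ) * g ^ v := by
    have h1 : z = z ^ (u * (μ : ℤ)) * z ^ ((d : ℤ) * v) := by
      rw [← zpow_add₀ hz0, mul_comm (d : ℤ) v, huv, zpow_one]
    conv_lhs => rw [h1]
    rw [_root_.zpow_mul z (d : ℤ) v, hzd, mul_zpow, ht, mul_zpow, ← _root_.zpow_mul, ← _root_.zpow_mul, ← _root_.zpow_mul,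
      mul_comm (μ : ℤ) v]
    ring
  let gen : (Σ i : β, Fin (M i)) → F := fun p => if p = p0 then t else R p
  let T : Finset F := s ∪ Finset.univ.image gen
  have hTcard : T.card ≤ n := by
    refine (Finset.card_union_le _ _).trans ?_
    have : (Finset.univ.image gen).card ≤ Fintype.card (Σ i : β, Fin (M i)) := by
      refine Finset.card_image_le.trans ?_
      rw [Finset.card_univ]
    omega
  have hT : IntermediateField.adjoin k (T : Set F) = ⊤ := by
    set A := IntermediateField.adjoin k (T : Set F) with hA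
    have hTA : ∀ a ∈ T, a ∈ A := fun a ha => IntermediateField.subset_adjoin k _ ha
    have hgA : ∀ p, gen p ∈ A := by
      intro p
      apply hTA
      apply Finset.mem_union_right
      exact Finset.mem_image_of_mem gen (Finset.mem_univ p)
    have htA : t ∈ A := by
      have h := hgA p0
      simpa [gen] using h
    have hRA' : ∀ p, p ≠ p0 → R p ∈ A := by
      intro p hp
      have h := hgA p
      simp only [gen] at h
      rwa [if_neg hp] at h
    have hgmem : g ∈ A := by
      have hle : IntermediateField.adjoin k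
          {a | ∃ p : Σ i, Fin (M i), p ≠ p0 ∧ a = ratio x b c p.1 p.2} ≤ A := by
        rw [IntermediateField.adjoin_le_iff]
        rintro _ ⟨p, hp, rfl⟩
        exact hRA' p hp
      exact hle hg
    have hRA : ∀ p, R p ∈ A := by
      intro p
      by_cases hp : p = p0
      · rw [hp, hR]
        exact mul_mem (zpow_mem htA _) (zpow_mem hgmem _)
      · exact hRA' p hp
    have hEA : E ≤ A := by
      rw [hEdef, IntermediateField.adjoin_le_iff]
      rintro _ ⟨p, rfl⟩
      exact hRA p
    have hxA : ∀ i, x i ∈ A := by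
      intro i
      have h := hs2 i
      generalize x i = xi at h
      induction h using Submodule.span_induction with
      | mem a ha =>
        rcases ha with rfl | ha
        · exact one_mem A
        · exact hTA a (Finset.mem_union_left _ ha)
      | zero => exact zero_mem A
      | add a b _ _ ha hb => exact add_mem ha hb
      | smul f a _ ha =>
        rw [Algebra.smul_def]
        exact mul_mem (hEA f.2) ha
    have hhA : h ∈ A := by
      have hle : IntermediateField.adjoin k (Set.range x) ≤ A := by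
        rw [IntermediateField.adjoin_le_iff]
        rintro _ ⟨i, rfl⟩
        exact hxA i
      exact hle hh
    have hzA : z ∈ A := by
      rw [hzt]
      exact mul_mem (zpow_mem htA _) (zpow_mem hgmem _)
    rw [eq_top_iff, ← hadj, IntermediateField.adjoin_le_iff]
    rintro _ (⟨i, rfl⟩ | hy')
    · exact hxA i
    · rw [Set.mem_singleton_iff] at hy'
      rw [hy', hy]
      exact mul_mem hzA hhA
  exact ⟨_, rational_of_gens hx T hTcard hT⟩

end Pool.Agent.Helper70.HA
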