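import Mathlib
import Pool.Agent.Helper70.HA.R1

namespace Pool.Agent.Helper70.HA

open Module Matrix Pool.Agent.Helper98.KA

theorem r2_rk_pos {k : Type*} [Field k] {E : Type*} {n : ℕ} (l : E → Fin (n + 1) → k)
    (hl : ∀ e, l e ≠ 0) {S : Finset E} (hS : S.Nonempty) : 1 ≤ rk l S := by
  obtain ⟨e, he⟩ := hS
  unfold rk
  rw [Nat.one_le_iff_ne_zero]
  intro h0
  have h2 : Submodule.span k (l '' (S : Set E)) = ⊥ := Submodule.finrank_eq_zero.mp h0
  have h1 : l e ∈ Submodule.span k (l '' (S : Set E)) := Submodule.subset_span ⟨e, he, rfl⟩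
  rw [h2, Submodule.mem_bot] at h1
  exact hl e h1

theorem r2_basis {k : Type*} [Field k] {E : Type*} {n : ℕ} (l : E → Fin (n + 1) → k)
    {S : Finset E} (M : ℕ) (hM : rk l S = M + 1) :
    ∃ (b : Fin (n + 1) → k) (c : Fin M → Fin (n + 1) → k), (∃ e ∈ S, b = l e) ∧
      Submodule.span k (insert b (Set.range c)) = Submodule.span k (l '' (S : Set E)) := by
  obtain ⟨f, hf, hsp, -⟩ := Submodule.exists_fun_fin_finrank_span_eq k (l '' (S : Set E))
  have hM' : finrank k (Submodule.span k (l '' (S : Set E))) = M + 1 := hM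
  let f' : Fin (M + 1) → Fin (n + 1) → k := fun i => f (Fin.cast hM'.symm i)
  have hr : Set.range f' = Set.range f := by
    ext v
    constructor
    · rintro ⟨i, rfl⟩
      exact ⟨_, rfl⟩
    · rintro ⟨i, rfl⟩
      exact ⟨Fin.cast hM' i, by simp [f']⟩
  refine ⟨f' 0, fun j => f' j.succ, ?_, ?_⟩
  · obtain ⟨e, he, h⟩ := hf (Fin.cast hM'.symm 0)
    exact ⟨e, he, h.symm⟩
  · rw [← hsp, ← hr]
    congr 1
    ext v
    constructor
    · rintro (rfl | ⟨j, rfl⟩)
      · exact ⟨0, rfl⟩
      · exact ⟨j.succ, rfl⟩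
    · rintro ⟨i, rfl⟩
      refine Fin.cases ?_ (fun j => ?_) i
      · exact Or.inl rfl
      · exact Or.inr ⟨j, rfl⟩

theorem r2_basis1 {k : Type*} [Field k] {E : Type*} [DecidableEq E] {n : ℕ}
    (l : E → Fin (n + 1) → k) (hl : ∀ e, l e ≠ 0)
    {S : Finset E} {e1 : E} (he1 : e1 ∈ S) (hS : (S.erase e1).Nonempty)
    (hlt : rk l (S.erase e1) < rk l S) (M : ℕ) (hM : rk l S = M + 1) :
    ∃ (b : Fin (n + 1) → k) (c : Fin M → Fin (n + 1) → k), (∃ e ∈ S, b = l e) ∧
      Submodule.span k (insert b (Set.range c)) = Submodule.span k (l '' (S : Set E)) ∧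
      ∃ j0 : Fin M, c j0 = l e1 ∧ Submodule.span k (insert b (c '' {j | j ≠ j0})) =
        Submodule.span k (l '' ((S.erase e1 : Finset E) : Set E)) := by
  have himg : l '' (S : Set E) = insert (l e1) (l '' ((S.erase e1 : Finset E) : Set E)) := by
    rw [← Set.image_insert_eq, ← Finset.coe_insert, Finset.insert_erase he1]
  have hle : rk l S ≤ rk l (S.erase e1) + 1 := by
    unfold rk
    rw [himg, Submodule.span_insert, sup_comm]
    refine (Submodule.finrank_add_le_finrank_add_finrank _ _).trans ?_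
    have := finrank_span_le_card (R := k) ({l e1} : Set (Fin (n + 1) → k))
    have h2 : finrank k (Submodule.span k {l e1}) ≤ 1 := by simpa using this
    omega
  have hpos := r2_rk_pos l hl hS
  obtain ⟨M', rfl⟩ : ∃ M', M = M' + 1 := ⟨M - 1, by omega⟩
  obtain ⟨b, c, ⟨e, he, hbe⟩, hsp⟩ := r2_basis l (S := S.erase e1) M' (by omega)
  have hc0 : ∀ j : Fin M', (Fin.snoc c (l e1) : Fin (M' + 1) → Fin (n + 1) → k) j.castSucc = c j :=
    fun j => Fin.snoc_castSucc (α := fun _ => Fin (n + 1) → k) _ _ _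
  have hc1 : (Fin.snoc c (l e1) : Fin (M' + 1) → Fin (n + 1) → k) (Fin.last M') = l e1 :=
    Fin.snoc_last (α := fun _ => Fin (n + 1) → k) _ _
  refine ⟨b, Fin.snoc c (l e1), ⟨e, Finset.mem_of_mem_erase he, hbe⟩, ?_, Fin.last M', hc1, ?_⟩
  · have h1 : insert b (Set.range (Fin.snoc c (l e1) : Fin (M' + 1) → Fin (n + 1) → k)) =
        insert (l e1) (insert b (Set.range c)) := by
      ext v
      constructor
      · rintro (rfl | ⟨j, rfl⟩)
        · exact Or.inr (Or.inl rfl)
        · refine Fin.lastCases ?_ (fun j => ?_) j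
          · rw [hc1]
            exact Or.inl rfl
          · rw [hc0]
            exact Or.inr (Or.inr ⟨j, rfl⟩)
      · rintro (rfl | rfl | ⟨j, rfl⟩)
        · exact Or.inr ⟨Fin.last M', hc1⟩
        · exact Or.inl rfl
        · exact Or.inr ⟨j.castSucc, hc0 j⟩
    rw [h1, Submodule.span_insert, hsp, himg, Submodule.span_insert]
  · rw [← hsp]
    congr 2
    ext v
    constructor
    · rintro ⟨j, hj, rfl⟩
      have hj' : j ≠ Fin.last M' := hj
      obtain ⟨j', rfl⟩ := Fin.eq_castSucc_of_ne_last hj'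
      exact ⟨j', (hc0 j').symm⟩
    · rintro ⟨j, rfl⟩
      exact ⟨j.castSucc, (Fin.castSucc_lt_last j).ne, hc0 j⟩

theorem r2_vmap_span {k F : Type*} [Field k] [Field F] [Algebra k F] {n : ℕ}
    (T : Set (Fin (n + 1) → k)) {A : Submodule F (Fin (n + 1) → F)}
    (hA : ∀ v ∈ T, vmap (F := F) v ∈ A) : ∀ v ∈ Submodule.span k T, vmap (F := F) v ∈ A := by
  intro v hv
  induction hv using Submodule.span_induction with
  | mem v hv => exact hA v hv
  | zero =>
    have : vmap (F := F) (0 : Fin (n + 1) → k) = 0 := by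
      funext j; simp [vmap]
    rw [this]; exact A.zero_mem
  | add u v _ _ hu hv =>
    have : vmap (F := F) (u + v) = vmap u + vmap v := by
      funext j; simp [vmap]
    rw [this]; exact A.add_mem hu hv
  | smul a v _ hv =>
    have : vmap (F := F) (a • v) = algebraMap k F a • vmap v := by
      funext j; simp [vmap]
    rw [this]; exact A.smul_mem _ hv

theorem r2_div_span {k F : Type*} [Field k] [Field F] [Algebra k F] {n : ℕ} (x : Fin n → F)
    (T : Set (Fin (n + 1) → k)) (s : F) (A : IntermediateField k F)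
    (hA : ∀ v ∈ T, (vmap (F := F) v ⬝ᵥ pt x) / s ∈ A) :
    ∀ v ∈ Submodule.span k T, (vmap (F := F) v ⬝ᵥ pt x) / s ∈ A := by
  intro v hv
  induction hv using Submodule.span_induction with
  | mem v hv => exact hA v hv
  | zero =>
    have : vmap (F := F) (0 : Fin (n + 1) → k) = 0 := by
      funext j; simp [vmap]
    rw [this, zero_dotProduct, zero_div]; exact A.zero_mem
  | add u v _ _ hu hv =>
    have : vmap (F := F) (u + v) = vmap u + vmap v := by
      funext j; simp [vmap]
    rw [this, add_dotProduct, add_div]; exact A.add_mem hu hv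
  | smul a v _ hv =>
    have : vmap (F := F) (a • v) = algebraMap k F a • vmap v := by
      funext j; simp [vmap]
    rw [this, smul_dotProduct, smul_eq_mul, mul_div_assoc]
    exact A.mul_mem (A.algebraMap_mem a) hv

/-- A good partition gives rationality. -/
theorem rational_of_good {k F : Type*} [Field k] [CharZero k] [Field F] [Algebra k F] {n d : ℕ}
    (hd : 2 ≤ d) {E : Type*} [Fintype E] [DecidableEq E] (l : E → Fin (n + 1) → k)
    (hl : ∀ e, l e ≠ 0) (m : E → ℕ) (hm : ∀ e, (m e).Coprime d)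
    (hgood : Good d m (rk l) Finset.univ) (x : Fin n → F) (hx : AlgebraicIndependent k x) (y : F)
    (hy : y ^ d = ∏ e, (algebraMap k F (l e 0) + ∑ i : Fin n, algebraMap k F (l e i.succ) * x i) ^ m e)
    (hadj : IntermediateField.adjoin k (Set.range x ∪ {y}) = ⊤) :
    ∃ m : ℕ, Nonempty (F ≃ₐ[k] FractionRing (MvPolynomial (Fin m) k)) := by
  classical
  obtain ⟨P, hP1, hP2, p1, hp1, e1, he1, hlt⟩ := hgood
  -- the linear forms
  let ev : (Fin (n + 1) → k) → F := fun v => vmap (F := F) v ⬝ᵥ pt x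
  have hev0 : ∀ v : Fin (n + 1) → k, v ≠ 0 → ev v ≠ 0 := by
    intro v hv h0
    apply hv
    apply linform_ne_zero hx
    rw [← dot_pt]
    exact h0
  have hevA : ∀ (A : IntermediateField k F), (∀ i, x i ∈ A) → ∀ v, ev v ∈ A := by
    intro A hA v
    change vmap (F := F) v ⬝ᵥ pt x ∈ A
    rw [dot_pt]
    apply add_mem (A.algebraMap_mem _)
    apply sum_mem
    intro i _
    exact mul_mem (A.algebraMap_mem _) (hA i)
  have hy' : y ^ d = ∏ e, ev (l e) ^ m e := by
    rw [hy]
    apply Finset.prod_congr rfl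
    intro e _
    congr 1
    exact (dot_pt x _).symm
  have htb : IsTranscendenceBasis k x := by
    apply isTranscendenceBasis_of_roots hx (fun _ : Fin 1 => y) (fun _ => d) (fun _ => by omega)
    · intro _
      rw [hy]
      apply prod_mem
      intro e _
      apply pow_mem
      apply add_mem (Subalgebra.algebraMap_mem _ _)
      apply sum_mem
      intro i _
      exact mul_mem (Subalgebra.algebraMap_mem _ _) (Algebra.subset_adjoin ⟨i, rfl⟩)
    · rw [Set.range_const]
      exact hadj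
  -- the parts
  have hne : ∀ p : {p // p ∈ P.parts}, p.1.Nonempty := fun p => P.nonempty_of_mem_parts p.2
  have hrk : ∀ p : {p // p ∈ P.parts}, 1 ≤ rk l p.1 := fun p => r2_rk_pos l hl (hne p)
  have hers : (p1.erase e1).Nonempty := by
    rw [Finset.nonempty_iff_ne_empty]
    intro h0
    have h1 : p1 = {e1} := by
      rw [← Finset.insert_erase he1, h0]
      rfl
    have h2 := hP1 p1 hp1
    rw [h1, Finset.sum_singleton] at h2
    have h3 : d = 1 := (Nat.Coprime.eq_one_of_dvd (hm e1).symm h2)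
    omega
  have hdat : ∀ p : {p // p ∈ P.parts}, ∃ (b : Fin (n + 1) → k)
      (c : Fin (rk l p.1 - 1) → Fin (n + 1) → k), (∃ e ∈ p.1, b = l e) ∧
      Submodule.span k (insert b (Set.range c)) = Submodule.span k (l '' (p.1 : Set E)) ∧
      (p.1 = p1 → ∃ j0 : Fin (rk l p.1 - 1), c j0 = l e1 ∧
        Submodule.span k (insert b (c '' {j | j ≠ j0})) =
        Submodule.span k (l '' ((p.1.erase e1 : Finset E) : Set E))) := by
    intro p
    have hr : rk l p.1 = (rk l p.1 - 1) + 1 := by have := hrk p; omega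
    by_cases hp : p.1 = p1
    · obtain ⟨b, c, h1, h2, h3⟩ := r2_basis1 l hl (S := p.1) (e1 := e1) (by rw [hp]; exact he1)
        (by rw [hp]; exact hers) (by rw [hp]; exact hlt) _ hr
      exact ⟨b, c, h1, h2, fun _ => h3⟩
    · obtain ⟨b, c, h1, h2⟩ := r2_basis l (S := p.1) _ hr
      exact ⟨b, c, h1, h2, fun h => absurd h hp⟩
  choose b c hbe hspan hj using hdat
  obtain ⟨j0, hj0, hj0s⟩ := hj ⟨p1, hp1⟩ rfl
  have hb : ∀ p, ev (b p) ≠ 0 := by
    intro p
    obtain ⟨e, -, he⟩ := hbe p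
    rw [he]
    exact hev0 _ (hl e)
  -- the part of an element
  let π : E → {p // p ∈ P.parts} := fun e => ⟨P.part e, P.part_mem.2 (Finset.mem_univ e)⟩
  have hπ : ∀ e (p : {p // p ∈ P.parts}), e ∈ p.1 ↔ π e = p := by
    intro e p
    constructor
    · intro h
      exact Subtype.ext (P.part_eq_of_mem p.2 h)
    · rintro rfl
      exact P.mem_part (Finset.mem_univ e)
  have hπe : ∀ e, e ∈ (π e).1 := fun e => (hπ e _).2 rfl
  -- the sparsity condition
  have hsp : ∀ G : Finset {p // p ∈ P.parts}, G.Nonempty →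
      ∑ i ∈ G, (rk l i.1 - 1) < finrank F (Ssp (F := F) b c G) := by
    intro G hG
    have h1 := hP2 (G.image Subtype.val) (by
      intro p hp
      obtain ⟨q, -, rfl⟩ := Finset.mem_image.1 hp
      exact q.2) (hG.image _)
    rw [Finset.sum_image (fun a _ b _ h => Subtype.ext h),
      Finset.card_image_of_injective _ Subtype.val_injective] at h1
    have h2 : ∑ i ∈ G, (rk l i.1 - 1) + G.card = ∑ i ∈ G, rk l i.1 := by
      rw [Finset.card_eq_sum_ones, ← Finset.sum_add_distrib]
      apply Finset.sum_congr rfl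
      intro i _
      have := hrk i
      omega
    have h3 : rk l ((G.image Subtype.val).sup id) ≤ finrank F (Ssp (F := F) b c G) := by
      unfold rk
      refine (finrank_le_of_vmap (F := F) _).trans ?_
      apply Submodule.finrank_mono
      apply Submodule.span_le.mpr
      rintro _ ⟨_, ⟨e, he, rfl⟩, rfl⟩
      rw [Finset.mem_coe, Finset.mem_sup] at he
      obtain ⟨q, hq, heq⟩ := he
      obtain ⟨p, hp, rfl⟩ := Finset.mem_image.1 hq
      have h4 : l e ∈ Submodule.span k (insert (b p) (Set.range (c p))) := by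
        rw [hspan p]
        exact Submodule.subset_span ⟨e, heq, rfl⟩
      refine r2_vmap_span _ ?_ _ h4
      rintro v (rfl | ⟨j, rfl⟩)
      · exact Submodule.subset_span ⟨p, hp, Or.inl rfl⟩
      · exact Submodule.subset_span ⟨p, hp, Or.inr ⟨j, rfl⟩⟩
    omega
  -- the equation
  let t : {p // p ∈ P.parts} → ℕ := fun p => (∑ e ∈ p.1, m e) / d
  have ht : ∀ p, t p * d = ∑ e ∈ p.1, m e := fun p => Nat.div_mul_cancel (hP1 p.1 p.2)
  let h : F := ∏ p, ev (b p) ^ t p
  have hh0 : h ≠ 0 := Finset.prod_ne_zero_iff.mpr fun p _ => pow_ne_zero _ (hb p)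
  let R : E → F := fun e => ev (l e) / ev (b (π e))
  have hR0 : ∀ e, R e ≠ 0 := fun e => div_ne_zero (hev0 _ (hl e)) (hb _)
  have hhd : h ^ d = ∏ e, ev (b (π e)) ^ m e := by
    change (∏ p, ev (b p) ^ t p) ^ d = _
    rw [← Finset.prod_pow, ← Finset.prod_fiberwise (s := Finset.univ) (g := π)]
    apply Finset.prod_congr rfl
    intro p _
    have h1 : (Finset.univ.filter fun e => π e = p) = p.1 := by
      ext e
      simp only [Finset.mem_filter, Finset.mem_univ, true_and]
      exact (hπ e p).symm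
    rw [h1, ← pow_mul, ht, ← Finset.prod_pow_eq_pow_sum]
    apply Finset.prod_congr rfl
    intro e he
    rw [(hπ e p).1 he]
  have hz : (y / h) ^ d = R e1 ^ m e1 * ∏ e ∈ Finset.univ.erase e1, R e ^ m e := by
    rw [Finset.mul_prod_erase Finset.univ (fun e => R e ^ m e) (Finset.mem_univ e1), div_pow, hy',
      hhd, ← Finset.prod_div_distrib]
    apply Finset.prod_congr rfl
    intro e _
    rw [← div_pow]
  have hπ1 : π e1 = ⟨p1, hp1⟩ := (hπ e1 ⟨p1, hp1⟩).1 he1
  have hR1 : ratio x b c ⟨p1, hp1⟩ j0 = R e1 := by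
    change (vmap (F := F) (c ⟨p1, hp1⟩ j0) ⬝ᵥ pt x) / (vmap (F := F) (b ⟨p1, hp1⟩) ⬝ᵥ pt x) =
      ev (l e1) / ev (b (π e1))
    rw [hj0, hπ1]
  set A : IntermediateField k F := IntermediateField.adjoin k
    {a | ∃ p : Σ i : {p // p ∈ P.parts}, Fin (rk l i.1 - 1),
      p ≠ ⟨⟨p1, hp1⟩, j0⟩ ∧ a = ratio x b c p.1 p.2} with hA
  have hRA : ∀ e, e ≠ e1 → R e ∈ A := by
    intro e hee
    change (vmap (F := F) (l e) ⬝ᵥ pt x) / ev (b (π e)) ∈ A
    by_cases hp : π e = ⟨p1, hp1⟩
    · rw [hp]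
      have h4 : l e ∈ Submodule.span k (insert (b ⟨p1, hp1⟩) (c ⟨p1, hp1⟩ '' {j | j ≠ j0})) := by
        rw [hj0s]
        refine Submodule.subset_span ⟨e, ?_, rfl⟩
        rw [Finset.mem_coe, Finset.mem_erase]
        exact ⟨hee, (hπ e ⟨p1, hp1⟩).2 hp⟩
      refine r2_div_span x _ _ A ?_ _ h4
      rintro v (rfl | ⟨j, hj, rfl⟩)
      · change ev (b ⟨p1, hp1⟩) / ev (b ⟨p1, hp1⟩) ∈ A
        rw [div_self (hb _)]
        exact one_mem A
      · apply IntermediateField.subset_adjoin k _
        refine ⟨⟨⟨p1, hp1⟩, j⟩, ?_, rfl⟩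
        intro h5
        exact hj (eq_of_heq (Sigma.mk.inj h5).2)
    · have h4 : l e ∈ Submodule.span k (insert (b (π e)) (Set.range (c (π e)))) := by
        rw [hspan]
        exact Submodule.subset_span ⟨e, hπe e, rfl⟩
      refine r2_div_span x _ _ A ?_ _ h4
      rintro v (rfl | ⟨j, rfl⟩)
      · change ev (b (π e)) / ev (b (π e)) ∈ A
        rw [div_self (hb _)]
        exact one_mem A
      · apply IntermediateField.subset_adjoin k _
        refine ⟨⟨π e, j⟩, ?_, rfl⟩
        intro h5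
        exact hp (Sigma.mk.inj h5).1
  refine rational_of_blocks (β := {p // p ∈ P.parts}) (M := fun i => rk l i.1 - 1) x htb b c hb hsp
    ⟨⟨p1, hp1⟩, j0⟩ y (y / h) (∏ e ∈ Finset.univ.erase e1, R e ^ m e) h (μ := m e1) (d := d)
    (hm e1) (by omega) ?_ ?_ ?_ ?_ ?_ ?_ hadj
  · change ratio x b c ⟨p1, hp1⟩ j0 ≠ 0
    rw [hR1]
    exact hR0 e1
  · exact Finset.prod_ne_zero_iff.mpr fun e _ => pow_ne_zero _ (hR0 e)
  · apply prod_mem
    intro e he
    exact pow_mem (hRA e (Finset.ne_of_mem_erase he)) _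
  · change (y / h) ^ d = ratio x b c ⟨p1, hp1⟩ j0 ^ m e1 * _
    rw [hR1]
    exact hz
  · apply prod_mem
    intro p _
    apply pow_mem
    exact hevA (IntermediateField.adjoin k (Set.range x))
      (fun i => IntermediateField.subset_adjoin k (Set.range x) (Set.mem_range_self i)) _
  · rw [div_mul_cancel₀ _ hh0]

end Pool.Agent.Helper70.HA
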